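import Pool.Agent.Lib.MP_177a0e_gt.Des.Defs

/-!
# Mirror images.

PROOFS. `smoothRel_adj`: `cases h`; `adj` (`TangleMain.lean`) reverses the word, exchanges minima and maxima and replaces `cross s x y` by `cross (!s) y x`. Antiparallel: the image is the case `!x` (`Bool.not_not`). `smooths_adj`: induction; a local replacement in `u ++ a ++ v` becomes one in `adj v ++ adj a ++ adj u` (`adj_append`, `Valid.adj`, as in `Local.adjL` in
`TangleRev.lean`). `alternating_adj`: the letters of `adj w` are the images of the letters of `w`, with the same strands on the left and the type `s` changed. `altPair_adj`: `adj L` is obtained from `adj w` by smoothing `q` negative crossings, `adj K` by smoothing `p` positive ones.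
-/

namespace Pool.Agent.Lib.MP_177a0e_gt.Des

open Pool.Agent.Lib.MP_177a0e_gt.Tangle Pool.Agent.Lib.MP_177a0e_gt.Tangle.Gen

theorem smoothRel_adj {b : Bool} {a a' : Word} (h : SmoothRel b a a') : SmoothRel (!b) (adj a) (adj a') := by
  cases h with
  | parallel x p q => exact SmoothRel.parallel x p q
  | antiparallel x p q =>
    have h1 := SmoothRel.antiparallel (b := !b) (!x) p q
    rw [Bool.not_not x] at h1
    exact h1

private theorem adj_local {R S : Word → Word → Prop} {c e : List Bool} {w w' : Word}
    (hR : ∀ a b, R a b → S (adj a) (adj b)) (h : Local R c e w w') :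
    Local S e c (adj w) (adj w') := by
  cases h with
  | mk u a b v h h₁ h₂ =>
    have h₁' := h₁.adj
    have h₂' := h₂.adj
    simp only [adj_append, ← List.append_assoc] at h₁' h₂' ⊢
    exact Local.mk _ _ _ _ (hR a b h) h₁' h₂'

theorem smooths_adj {b : Bool} {n : ℕ} {w w' : Word} (h : Smooths b n w w') : Smooths (!b) n (adj w) (adj w') := by
  induction h with
  | refl => exact Smooths.refl _
  | step _ h' ih => exact Smooths.step ih (adj_local (fun _ _ => smoothRel_adj) h')

theorem alternating_adj {e : Bool} {w : Word} (h : Alternating e w) : Alternating (!e) (adj w) := by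
  intro s hs c x y hg
  obtain ⟨s', hs', rfl⟩ := List.mem_map.1 (List.mem_reverse.1 hs)
  have h1 : s'.gen = cross (!c) y x := by
    have h2 : s'.gen.adj.adj = (cross c x y).adj := congrArg Gen.adj hg
    rwa [Gen.adj_adj] at h2
  have h3 := h s' hs' (!c) y x h1
  have h4 : (c = !e) ↔ ((!c) = e) := by cases c <;> cases e <;> decide
  exact h4.trans h3

theorem altPair_adj {g : ℕ} {K L : Word} (h : AltPair g K L) : AltPair g (adj L) (adj K) := by
  obtain ⟨e, w, p, q, hA, h1, h2, hpq⟩ := h
  exact ⟨!e, adj w, q, p, alternating_adj hA, smooths_adj h2, smooths_adj h1, by omega⟩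

end Pool.Agent.Lib.MP_177a0e_gt.Des
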