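import Pool.Agent.Lib.MP_177a0e_gt.Des.CntA

/-!
# A diagram has at least as many bounded regions as crossings.

PROOF. Induction from the right (`List.reverseRecOn`) with `CntA`: for every word `cups w + cn w ≤ dk 1 w + dk 0 w + caps w` (`cups`, `caps` are defined in `TangleMain.lean`, additive for `++`: induction). A minimum or a crossing at `L`: the parity `k` of `L + 1` gains one (`dk_free`), the other one does not lose (`dk_mono`); a maximum: the parity of `L` loses at most one (`dk_cap`), the other one nothing (`dk_cap'`).
The empty word: `0 ≤ …`. If `Valid [true] w [true]` then `cups w = caps w` (`count` in `TangleMain.lean`). `dk_one`, `dk_zero`.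
-/

namespace Pool.Agent.Lib.MP_177a0e_gt.Des

open Pool.Agent.Lib.MP_177a0e_gt.Tangle Pool.Agent.Lib.MP_177a0e_gt.Tangle.Gen
open Pool.Agent.Lib.MP_177a0e_gt.Sig

private theorem Cnt_cups_append (u v : Word) : cups (u ++ v) = cups u + cups v := by
  induction u with
  | nil => simp [cups]
  | cons s u ih =>
    rcases s with ⟨p, _ | _ | _, q⟩ <;> simp only [List.cons_append, cups, ih]
    omega

private theorem Cnt_caps_append (u v : Word) : caps (u ++ v) = caps u + caps v := by
  induction u with
  | nil => simp [caps]
  | cons s u ih =>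
    rcases s with ⟨p, _ | _ | _, q⟩ <;> simp only [List.cons_append, caps, ih]
    omega

private theorem Cnt_all (w : Word) : cups w + cn w ≤ dk 1 w + dk 0 w + caps w := by
  induction w using List.reverseRecOn with
  | nil => simp [cups, cn]
  | append_singleton w s ih =>
    rw [Cnt_cups_append, Cnt_caps_append, cn_append]
    rcases s with ⟨p, g, q⟩
    have hpar : (lp ⟨p, g, q⟩) % 2 = 0 ∨ (lp ⟨p, g, q⟩) % 2 = 1 := by omega
    rcases g with x | x | ⟨c, x, y⟩
    all_goals first
      | (have h1 : cups [⟨p, cup x, q⟩] + cn [⟨p, cup x, q⟩] = 1 := by simp [cups, cn]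
         have h2 : caps [⟨p, cup x, q⟩] = 0 := by simp [caps]
         have hs : (∃ x', (⟨p, cup x, q⟩ : Slice).gen = cup x') ∨
           ∃ c x' y, (⟨p, cup x, q⟩ : Slice).gen = cross c x' y := Or.inl ⟨x, rfl⟩
         rcases hpar with hp | hp
         · have h3 := dk_free 1 w _ hs (by omega)
           have h4 := dk_mono 0 w _ hs
           omega
         · have h3 := dk_free 0 w _ hs (by omega)
           have h4 := dk_mono 1 w _ hs
           omega)
      | (have h1 : cups [⟨p, cap x, q⟩] + cn [⟨p, cap x, q⟩] = 0 := by simp [cups, cn]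
         have h2 : caps [⟨p, cap x, q⟩] = 1 := by simp [caps]
         have hs : ∃ x', (⟨p, cap x, q⟩ : Slice).gen = cap x' := ⟨x, rfl⟩
         rcases hpar with hp | hp
         · have h3 := dk_cap 0 w _ hs
           have h4 := dk_cap' 1 w _ hs (by omega)
           omega
         · have h3 := dk_cap 1 w _ hs
           have h4 := dk_cap' 0 w _ hs (by omega)
           omega)
      | (have h1 : cups [⟨p, cross c x y, q⟩] + cn [⟨p, cross c x y, q⟩] = 1 := by simp [cups, cn]
         have h2 : caps [⟨p, cross c x y, q⟩] = 0 := by simp [caps]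
         have hs : (∃ x', (⟨p, cross c x y, q⟩ : Slice).gen = cup x') ∨
           ∃ c' x' y', (⟨p, cross c x y, q⟩ : Slice).gen = cross c' x' y' := Or.inr ⟨c, x, y, rfl⟩
         rcases hpar with hp | hp
         · have h3 := dk_free 1 w _ hs (by omega)
           have h4 := dk_mono 0 w _ hs
           omega
         · have h3 := dk_free 0 w _ hs (by omega)
           have h4 := dk_mono 1 w _ hs
           omega)

theorem cn_le {w : Word} (h : Valid [true] w [true]) : cn w ≤ nw w + nb w := by
  have h1 := Cnt_all w
  have h2 := count h
  rw [dk_one, dk_zero] at h1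
  simp only [List.length_singleton] at h2
  omega

end Pool.Agent.Lib.MP_177a0e_gt.Des
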