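import Pool.Agent.Lib.MP_177a0e_gt.TangleMain

/-!
Smoothing crossings of alternating diagrams.
-/

namespace Pool.Agent.Lib.MP_177a0e_gt.Des

open Pool.Agent.Lib.MP_177a0e_gt.Tangle Pool.Agent.Lib.MP_177a0e_gt.Tangle.Gen

/-- A crossing of sign `b` (`true` = positive) is smoothed: two parallel strands become vertical
strands, two strands of opposite directions become a maximum and a minimum. (The crossing `cross s x y`
is positive if `s = true` and `x = y` or if `s = false` and `x ≠ y`.) -/
inductive SmoothRel (b : Bool) : Word → Word → Prop
  | parallel (x : Bool) (p q : List Bool) : SmoothRel b [⟨p, cross b x x, q⟩] []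
  | antiparallel (x : Bool) (p q : List Bool) :
      SmoothRel b [⟨p, cross (!b) x (!x), q⟩] [⟨p, cap x, q⟩, ⟨p, cup (!x), q⟩]

/-- The diagram `w'` is obtained from the diagram `w` by smoothing `n` crossings of sign `b`. -/
inductive Smooths (b : Bool) : ℕ → Word → Word → Prop
  | refl (w : Word) : Smooths b 0 w w
  | step {n : ℕ} {w w₁ w₂ : Word} (h : Smooths b n w w₁)
      (h' : Local (SmoothRel b) [true] [true] w₁ w₂) : Smooths b (n + 1) w w₂

/-- The diagram `w` is alternating: all its crossings are of the same type with respect to the
checkerboard colouring (the region to the left of a crossing is white or black according to the parity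
of the number of strands to the left of the crossing). -/
def Alternating (e : Bool) (w : Word) : Prop :=
  ∀ s ∈ w, ∀ c x y, s.gen = cross c x y → (c = e ↔ s.left.length % 2 = 0)

/-- `K` is obtained from an alternating diagram by smoothing `p` negative crossings, and `L` is obtained
from the same diagram by smoothing `q` positive crossings, where `p + q = 2 g`. -/
def AltPair (g : ℕ) (K L : Word) : Prop :=
  ∃ (e : Bool) (w : Word) (p q : ℕ), Alternating e w ∧ Smooths false p w K ∧ Smooths true q w L ∧
    p + q = 2 * g

/-- `Desc g K L`: the knot `K` descends to the knot `L` with loss of genus `g`. -/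
inductive Desc : ℕ → Knot → Knot → Prop
  /-- there is a ribbon concordance from `K` to `L`, for instance an isotopy -/
  | ribbon {K L : Knot} (h : RibbonConcordance K.1 L.1) : Desc 0 K L
  /-- `K` and `L` are obtained from one alternating diagram by smoothing negative, respectively positive
  crossings -/
  | alternating {g : ℕ} {K L : Knot} (h : AltPair g K.1 L.1) : Desc g K L
  | trans {g g' : ℕ} {K L M : Knot} (h : Desc g K L) (h' : Desc g' L M) : Desc (g + g') K M
  | left {g : ℕ} {K L : Knot} (J : Knot) (h : Desc g K L) : Desc g (J.csum K) (J.csum L)
  | right {g : ℕ} {K L : Knot} (J : Knot) (h : Desc g K L) : Desc g (K.csum J) (L.csum J)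

end Pool.Agent.Lib.MP_177a0e_gt.Des
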