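import Pool.Agent.Lib.MP_177a0e_gt.Sig.Fd
import Pool.Agent.Lib.MP_177a0e_gt.Des.Defs

/-!
The black states and the number of crossings.
-/

namespace Pool.Agent.Lib.MP_177a0e_gt.Des

open Pool.Agent.Lib.MP_177a0e_gt.Tangle Pool.Agent.Lib.MP_177a0e_gt.Tangle.Gen
open Pool.Agent.Lib.MP_177a0e_gt.Sig

/-- the values which are zero at the odd gaps -/
def blackM : Submodule ℚ (ℕ → ℚ) where
  carrier := {x | ∀ i, i % 2 = 1 → x i = 0}
  add_mem' := fun {x y} h1 h2 i hi => by rw [Pi.add_apply, h1 i hi, h2 i hi, add_zero]
  zero_mem' := fun _ _ => rfl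
  smul_mem' := fun r {x} h i hi => by rw [Pi.smul_apply, h i hi, smul_zero]

/-- the black states of a word with the bottom level zero -/
abbrev Black (w : Word) : Submodule ℚ (ℕ → ℕ → ℚ) := Closed (fitM ℚ) blackM w

instance fdB (w : Word) : FiniteDimensional ℚ (Black w) := fd (P := fitM ℚ) (fun _ => le_refl _) _ w

/-- the numbers of white and of black bounded regions -/
noncomputable def nw (w : Word) : ℕ := Module.finrank ℚ (White w)

/-- the numbers of white and of black bounded regions -/
noncomputable def nb (w : Word) : ℕ := Module.finrank ℚ (Black w)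

/-- the number of crossings -/
def cn : Word → ℕ
  | [] => 0
  | ⟨_, cross _ _ _, _⟩ :: w => cn w + 1
  | _ :: w => cn w

theorem cn_append (u v : Word) : cn (u ++ v) = cn u + cn v := by
  induction u with
  | nil => simp [cn]
  | cons s u ih =>
    rcases s with ⟨p, _ | _ | _, q⟩ <;> simp only [List.cons_append, cn, ih]
    omega

end Pool.Agent.Lib.MP_177a0e_gt.Des
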