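import Pool.Agent.Lib.MP_177a0e_gt.Sig.La1
import Pool.Agent.Lib.MP_177a0e_gt.Des.Cn

/-!
# The form of an alternating diagram of nullity zero is definite.

PROOF. `Alternating e w`: every crossing has `eps s = sz e` (`eps s = sz c * (-1) ^ L`, `c = e ↔ L even`). So `gq w x x` is `sz e` times the sum of the squares of the jumps (induction on `w` with `sh 1`).
If it is zero for `x ∈ White w` then all jumps are zero, and then `x` satisfies `Col` at every crossing (for `L` even: `x (L + 1)` is unchanged and the values at `L`, `L + 2` are zero; for `L` odd: the values at `L`, `L + 2` are equal and the ones at `L + 1` are zero), so `x ∈ Dehn ℚ w`, which is `⊥` (`nul w = 0`).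
So the form is positive (negative) definite: `sg_pos` (`Sig/La0b.lean`), and `sg (-B) = - sg B` (definition of `sg`, `neg_neg`).
-/

namespace Pool.Agent.Lib.MP_177a0e_gt.Des

open Pool.Agent.Lib.MP_177a0e_gt.Tangle Pool.Agent.Lib.MP_177a0e_gt.Tangle.Gen
open Pool.Agent.Lib.MP_177a0e_gt.Sig

/-- the sum of the squares of the jumps -/
private def js : Word → (ℕ → ℕ → ℚ) → ℚ
  | [], _ => 0
  | s :: w, x => jmp s (x 0) (x 1) ^ 2 + js w (sh 1 x)

private theorem js_nonneg (w : Word) : ∀ x : ℕ → ℕ → ℚ, 0 ≤ js w x := by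
  induction w with
  | nil => intro x; exact le_rfl
  | cons s w ih => exact fun x => add_nonneg (sq_nonneg _) (ih _)

private theorem eps_alt {e c : Bool} {L : ℕ} (h : c = e ↔ L % 2 = 0) : sz c * (-1) ^ L = sz e := by
  rcases Nat.even_or_odd L with hL | hL
  · have h1 : c = e := h.2 (Nat.even_iff.1 hL)
    rw [h1, hL.neg_one_pow, mul_one]
  · have h1 : ¬ c = e := fun h2 => by
      have := h.1 h2
      have := Nat.odd_iff.1 hL
      omega
    rw [hL.neg_one_pow]
    cases c <;> cases e <;> simp_all [sz]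

private theorem gq_alt {e : Bool} (w : Word) : ∀ x : ℕ → ℕ → ℚ, Alternating e w →
    gq w x x = (sz e : ℚ) * js w x := by
  induction w with
  | nil => intro x _; simp [gq, js]
  | cons s w ih =>
    intro x he
    have he' : Alternating e w := fun t ht => he t (List.mem_cons_of_mem _ ht)
    have hs := he s List.mem_cons_self
    simp only [gq, js]
    rw [ih _ he', mul_add]
    congr 1
    rcases s with ⟨p, _ | _ | ⟨c, a, b⟩, q⟩
    · simp [eps, jmp]
    · simp [eps, jmp]
    · have h1 : eps ⟨p, cross c a b, q⟩ = sz e := eps_alt (hs c a b rfl)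
      rw [h1]
      ring

private theorem run_col (w : Word) : ∀ x : ℕ → ℕ → ℚ, Run (fitM ℚ) w x → (∀ j, x j ∈ whiteM ℚ) →
    js w x = 0 → Run (colM ℚ) w x := by
  induction w with
  | nil => intro x _ _ _; trivial
  | cons s w ih =>
    intro x hr hw h0
    have h1 : 0 ≤ js w (sh 1 x) := js_nonneg w _
    have h2 : 0 ≤ jmp s (x 0) (x 1) ^ 2 := sq_nonneg _
    have h3 : jmp s (x 0) (x 1) ^ 2 + js w (sh 1 x) = 0 := h0
    have h4 : jmp s (x 0) (x 1) = 0 := by
      have : jmp s (x 0) (x 1) ^ 2 = 0 := by linarith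
      exact pow_eq_zero_iff (two_ne_zero) |>.1 this
    refine ⟨⟨hr.1, ?_⟩, ih _ hr.2 (fun j => hw (j + 1)) (by linarith)⟩
    rcases s with ⟨p, _ | _ | ⟨c, a, b⟩, q⟩
    · trivial
    · trivial
    · have hw0 : ∀ i, i % 2 = 0 → x 0 i = 0 := hw 0
      have hw1 : ∀ i, i % 2 = 0 → x 1 i = 0 := hw 1
      have h4' : (if p.length % 2 = 0 then x 1 (p.length + 1) - x 0 (p.length + 1)
          else x 0 p.length - x 0 (p.length + 2)) = 0 := h4
      show x 1 (p.length + 1) - x 0 (p.length + 1) =
        (sz c : ℚ) * (x 0 p.length - x 0 (p.length + 2))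
      by_cases hp : p.length % 2 = 0
      · rw [if_pos hp] at h4'
        rw [h4', hw0 p.length hp, hw0 (p.length + 2) (by omega)]
        ring
      · rw [if_neg hp] at h4'
        rw [h4', hw0 (p.length + 1) (by omega), hw1 (p.length + 1) (by omega)]
        ring

private theorem js_pos {w : Word} (h : nul w = 0) (x : White w) (hx : x ≠ 0) : 0 < js w x.1 := by
  refine lt_of_le_of_ne (js_nonneg w _) fun h0 => hx ?_
  have h1 : x.1 ∈ Dehn ℚ w :=
    ⟨⟨run_col w _ x.2.1.1 x.2.1.2.1 h0.symm, fun _ => Submodule.mem_top, x.2.1.2.2⟩, x.2.2⟩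
  have h2 : Dehn ℚ w = ⊥ := Submodule.finrank_eq_zero.1 h
  rw [h2, Submodule.mem_bot] at h1
  exact Subtype.ext h1

theorem sg_alt {e : Bool} {w : Word} (he : Alternating e w) (h : nul w = 0) : sg (gw w) = sz e * (nw w : ℤ) := by
  have hB : ∀ x : White w, gw w x x = (sz e : ℚ) * js w x.1 := fun x => gq_alt w x.1 he
  have hsym : ∀ x y : White w, gw w x y = gw w y x := fun x y => gq_comm w x.1 y.1
  cases e with
  | true =>
    have h1 := sg_pos (gw w) hsym fun x hx => by
      rw [hB x]
      simpa [sz] using js_pos h x hx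
    rw [h1]
    simp [sz, nw]
  | false =>
    have h1 := sg_pos (-(gw w)) (fun x y => by
      rw [LinearMap.neg_apply, LinearMap.neg_apply, LinearMap.neg_apply, LinearMap.neg_apply,
        hsym x y]) fun x hx => by
      rw [LinearMap.neg_apply, LinearMap.neg_apply, hB x]
      simpa [sz] using js_pos h x hx
    have h2 : sg (gw w) = - sg (-(gw w)) := by
      unfold sg
      rw [neg_neg]
      ring
    rw [h2, h1]
    simp [sz, nw]

end Pool.Agent.Lib.MP_177a0e_gt.Des
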