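import Pool.Agent.Lib.MP_177a0e_gt.Sig.Cor
import Pool.Agent.Lib.MP_177a0e_gt.Sig.TbA
import Pool.Agent.Lib.MP_177a0e_gt.Des.Cn

/-!
# Correction term, number of crossings, saddles when crossings are smoothed.

PROOFS. `smooth_corr`: `cases h`; `corr_append` (`Sig/Cor.lean`), `cor` of the crossing is `0` if `b = e` and `sz e` if `b ≠ e` (definitions of `cor`, `eps`; parallel: `b = e ↔ L % 2 = 0`; antiparallel: `(!b) = e ↔ L % 2 = 0`). `smooth_cob`: `smooth_par`, `smooth_anti` (`Sig/TbA.lean`) and `Cob.ctx` (`TangleMain.lean`).
`alt_smooth`: the letters of `u ++ a' ++ v` which are crossings are letters of `u ++ a ++ v`.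
-/

namespace Pool.Agent.Lib.MP_177a0e_gt.Des

open Pool.Agent.Lib.MP_177a0e_gt.Tangle Pool.Agent.Lib.MP_177a0e_gt.Tangle.Gen
open Pool.Agent.Lib.MP_177a0e_gt.Sig

private theorem Cra_pw (n : ℕ) : ((-1 : ℤ)) ^ n = if n % 2 = 0 then 1 else -1 := by
  rcases Nat.mod_two_eq_zero_or_one n with h | h
  · rw [if_pos h]
    exact Even.neg_one_pow (Nat.even_iff.mpr h)
  · rw [if_neg (by omega)]
    exact Odd.neg_one_pow (Nat.odd_iff.mpr h)

private theorem Cra_cr (c x y : Bool) (p q : List Bool) : cor ⟨p, cross c x y, q⟩ =
    if (x = y) ↔ p.length % 2 = 0 then 0 else sz c * (if p.length % 2 = 0 then 1 else -1) := by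
  simp only [cor, eps, Sig.lp, Cra_pw]

theorem smooth_corr {b e : Bool} {a a' : Word} (h : SmoothRel b a a') (he : Alternating e a) (u v : Word) :
    corr (u ++ a ++ v) = corr (u ++ a' ++ v) + (if b = e then 0 else sz e) := by
  rw [corr_append, corr_append, corr_append, corr_append]
  have key : corr a = corr a' + (if b = e then 0 else sz e) := by
    cases h with
    | parallel x p q =>
      have h1 : b = e ↔ p.length % 2 = 0 := he _ (List.mem_singleton_self _) b x x rfl
      have h2 : corr [⟨p, cross b x x, q⟩] = cor ⟨p, cross b x x, q⟩ := by simp [corr]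
      have h3 : corr [] = 0 := rfl
      rw [h2, h3, Cra_cr]
      rcases Nat.mod_two_eq_zero_or_one p.length with h | h
      · have h4 : b = e := h1.2 h
        simp [h, h4]
      · have h4 : b ≠ e := fun h5 => by
          have := h1.1 h5
          omega
        have h5 : e = !b := by cases b <;> cases e <;> simp_all
        subst h5
        cases b <;> simp [h, sz]
    | antiparallel x p q =>
      have h1 : (!b) = e ↔ p.length % 2 = 0 :=
        he _ (List.mem_singleton_self _) (!b) x (!x) rfl
      have h2 : corr [⟨p, cross (!b) x (!x), q⟩] = cor ⟨p, cross (!b) x (!x), q⟩ := by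
        simp [corr]
      have h3 : corr [⟨p, cap x, q⟩, ⟨p, cup (!x), q⟩] = 0 := rfl
      rw [h2, h3, Cra_cr]
      rcases Nat.mod_two_eq_zero_or_one p.length with h | h
      · have h4 : (!b) = e := h1.2 h
        subst h4
        cases b <;> cases x <;> simp [h, sz]
      · have h4 : b = e := by
          have h5 : (!b) ≠ e := fun h6 => by
            have := h1.1 h6
            omega
          cases b <;> cases e <;> simp_all
        subst h4
        cases x <;> simp [h]
  rw [key]
  ring

theorem smooth_cn {b : Bool} {a a' : Word} (h : SmoothRel b a a') (u v : Word) :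
    cn (u ++ a ++ v) = cn (u ++ a' ++ v) + 1 := by
  rw [cn_append, cn_append, cn_append, cn_append]
  have key : cn a = cn a' + 1 := by
    cases h <;> rfl
  omega

theorem smooth_cob {b : Bool} {w w' : Word} (h : Local (SmoothRel b) [true] [true] w w') : Cob [true] [true] 0 1 0 w w' := by
  cases h with
  | mk u a a' v h h₁ h₂ =>
    cases h with
    | parallel x p q =>
      rw [valid_append] at h₁
      obtain ⟨m', h₁, hv⟩ := h₁
      rw [valid_append] at h₁
      obtain ⟨m, hu, ha⟩ := h₁
      rw [valid_single] at ha
      obtain ⟨ha1, ha2⟩ := ha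
      simp only [Slice.src, Slice.tgt, Gen.src, Gen.tgt] at ha1 ha2
      subst ha1 ha2
      exact (smooth_par b x p q).ctx hu hv
    | antiparallel x p q =>
      rw [valid_append] at h₁
      obtain ⟨m', h₁, hv⟩ := h₁
      rw [valid_append] at h₁
      obtain ⟨m, hu, ha⟩ := h₁
      rw [valid_single] at ha
      obtain ⟨ha1, ha2⟩ := ha
      simp only [Slice.src, Slice.tgt, Gen.src, Gen.tgt] at ha1 ha2
      subst ha1 ha2
      exact (smooth_anti (!b) x p q).ctx hu hv

theorem alt_smooth {b e : Bool} {a a' : Word} (h : SmoothRel b a a') (u v : Word) (he : Alternating e (u ++ a ++ v)) :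
    Alternating e a ∧ Alternating e (u ++ a' ++ v) := by
  refine ⟨fun s hs => he s ?_, fun s hs => ?_⟩
  · rw [List.mem_append, List.mem_append]
    exact Or.inl (Or.inr hs)
  · rw [List.mem_append, List.mem_append] at hs
    rcases hs with (hs | hs) | hs
    · refine he s ?_
      rw [List.mem_append, List.mem_append]
      exact Or.inl (Or.inl hs)
    · intro c x y hg
      exfalso
      cases h with
      | parallel x p q => exact absurd hs List.not_mem_nil
      | antiparallel x p q =>
        simp only [List.mem_cons, List.not_mem_nil, or_false] at hs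
        rcases hs with rfl | rfl
        · exact absurd hg (by simp)
        · exact absurd hg (by simp)
    · refine he s ?_
      rw [List.mem_append, List.mem_append]
      exact Or.inr hs

end Pool.Agent.Lib.MP_177a0e_gt.Des
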