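import Pool.Agent.Lib.MP_177a0e_gt.Des.Stp
import Pool.Agent.Lib.MP_177a0e_gt.Des.Cra

/-!
# Several crossings are smoothed.

PROOFS. Induction on `Smooths`; each step is `Local.mk u a b v h _ _` (`cases h'`): `alt_smooth`, `smooth_corr`, `smooth_cn`, `smooth_cob`, `step_same`, `step_other`. The validity: `Local.valid_left`, `Local.valid_right` (`TangleMain.lean`).
-/

namespace Pool.Agent.Lib.MP_177a0e_gt.Des

open Pool.Agent.Lib.MP_177a0e_gt.Tangle Pool.Agent.Lib.MP_177a0e_gt.Tangle.Gen
open Pool.Agent.Lib.MP_177a0e_gt.Sig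

theorem path_valid {b : Bool} {n : ℕ} {w w' : Word} (h : Smooths b n w w') (hv : Valid [true] w' [true]) :
    Valid [true] w [true] ∧ Cob [true] [true] 0 n 0 w w' := by
  induction h with
  | refl => exact ⟨hv, Cob.refl hv⟩
  | step _ h' ih =>
    obtain ⟨h1, h2⟩ := ih h'.valid_left
    exact ⟨h1, h2.trans (smooth_cob h')⟩

theorem path_alt {b e : Bool} {n : ℕ} {w w' : Word} (h : Smooths b n w w') (he : Alternating e w) :
    Alternating e w' ∧ cn w = cn w' + n ∧ corr w = corr w' + n * (if b = e then 0 else sz e) := by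
  induction h with
  | refl => exact ⟨he, rfl, by simp⟩
  | step _ h' ih =>
    obtain ⟨h1, h2, h3⟩ := ih he
    cases h' with
    | mk u a a' v h _ _ =>
      obtain ⟨h4, h5⟩ := alt_smooth h u v h1
      refine ⟨h5, ?_, ?_⟩
      · rw [h2, smooth_cn h u v]
        omega
      · rw [h3, smooth_corr h h4 u v]
        push_cast
        ring

theorem path_same {b e : Bool} {n : ℕ} {w w' : Word} (h : Smooths b n w w') (he : Alternating e w) (hb : b = e) :
    nb w' = nb w ∧ nw w ≤ nw w' + n := by
  induction h with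
  | refl => exact ⟨rfl, le_rfl⟩
  | step hs h' ih =>
    obtain ⟨h1, h2⟩ := ih he
    have h3 := (path_alt hs he).1
    cases h' with
    | mk u a a' v h _ _ =>
      obtain ⟨h4, h5⟩ := step_same h (alt_smooth h u v h3).1 hb u v
      exact ⟨h4.trans h1, by omega⟩

theorem path_other {b e : Bool} {n : ℕ} {w w' : Word} (h : Smooths b n w w') (he : Alternating e w) (hb : b ≠ e) :
    nw w' = nw w ∧ nb w ≤ nb w' + n := by
  induction h with
  | refl => exact ⟨rfl, le_rfl⟩
  | step hs h' ih =>
    obtain ⟨h1, h2⟩ := ih he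
    have h3 := (path_alt hs he).1
    cases h' with
    | mk u a a' v h _ _ =>
      obtain ⟨h4, h5⟩ := step_other h (alt_smooth h u v h3).1 hb u v
      exact ⟨h4.trans h1, by omega⟩

end Pool.Agent.Lib.MP_177a0e_gt.Des
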