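import Pool.Agent.Lib.MP_177a0e_gt.Des.Cn

/-!
# A diagram of nullity zero has at most as many bounded regions as crossings.

PROOF. The linear map from `White w × Black w` to the functions on the crossings (`{j : Fin w.length // w[j] is a crossing} → ℚ`; or `Fin w.length → ℚ` with values zero at the other slices),
`(x, y) ↦ (j ↦ z (j + 1) (L + 1) - z j (L + 1) - (sz c) (z j L - z j (L + 2)))`, `z = x + y`, `w[j] = ⟨p, cross c _ _, q⟩`, `L = p.length`, is injective: if all these numbers are zero then `z` is a run for `colM ℚ` (`Col`), so `z ∈ Dehn ℚ w`, which is zero because its dimension `nul w` is zero (`Module.finrank_zero_iff` or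
`Submodule.finrank_eq_zero`; `fdD`, `Sig/Fd.lean`), and `x` is zero at the even gaps, `y` at the odd ones. The number of crossings is `cn w` (induction). Alternatively an induction on `w` for finite-dimensional spaces `E` with a linear map to the runs of `w`: each crossing lowers the dimension by at most one (`Run`, `sh 1`).
-/

namespace Pool.Agent.Lib.MP_177a0e_gt.Des

open Pool.Agent.Lib.MP_177a0e_gt.Tangle Pool.Agent.Lib.MP_177a0e_gt.Tangle.Gen
open Pool.Agent.Lib.MP_177a0e_gt.Sig

/-- the shift of the levels by one -/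
private def upp_sh : (ℕ → ℕ → ℚ) →ₗ[ℚ] (ℕ → ℕ → ℚ) where
  toFun := sh 1
  map_add' _ _ := rfl
  map_smul' _ _ := rfl

/-- the condition on colourings at a crossing -/
private def upp_f (c : Bool) (L : ℕ) : (ℕ → ℕ → ℚ) →ₗ[ℚ] ℚ where
  toFun z := z 1 (L + 1) - z 0 (L + 1) - (sz c : ℚ) * (z 0 L - z 0 (L + 2))
  map_add' x y := by
    simp only [Pi.add_apply]
    ring
  map_smul' r x := by
    simp only [Pi.smul_apply, smul_eq_mul, RingHom.id_apply]
    ring

/-- the conditions at all crossings -/
private def upp_l : Word → List ((ℕ → ℕ → ℚ) →ₗ[ℚ] ℚ)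
  | [] => []
  | ⟨p, cross c _ _, _⟩ :: w => upp_f c p.length :: (upp_l w).map (fun f => f ∘ₗ upp_sh)
  | _ :: w => (upp_l w).map (fun f => f ∘ₗ upp_sh)

private theorem upp_len (w : Word) : (upp_l w).length = cn w := by
  induction w with
  | nil => rfl
  | cons s w ih =>
    rcases s with ⟨p, _ | _ | _, q⟩ <;> simp only [upp_l, cn, List.length_cons, List.length_map, ih]

private theorem upp_mem (s : Slice) (w : Word) (f : (ℕ → ℕ → ℚ) →ₗ[ℚ] ℚ) (hf : f ∈ upp_l w) :
    f ∘ₗ upp_sh ∈ upp_l (s :: w) := by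
  have h1 : f ∘ₗ upp_sh ∈ (upp_l w).map (fun f => f ∘ₗ upp_sh) :=
    List.mem_map_of_mem (f := fun f => f ∘ₗ upp_sh) hf
  rcases s with ⟨p, _ | _ | _, q⟩ <;> simp only [upp_l]
  · exact h1
  · exact h1
  · exact List.mem_cons_of_mem _ h1

private theorem upp_run (w : Word) : ∀ z : ℕ → ℕ → ℚ, Run (fitM ℚ) w z → (∀ f ∈ upp_l w, f z = 0) →
    Run (colM ℚ) w z := by
  induction w with
  | nil => intro z _ _; trivial
  | cons s w ih =>
    intro z h h'
    refine ⟨⟨h.1, ?_⟩, ih (sh 1 z) h.2 fun f hf => h' _ (upp_mem s w f hf)⟩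
    rcases s with ⟨p, _ | _ | ⟨c, x, y⟩, q⟩
    · trivial
    · trivial
    · have h1 := h' (upp_f c p.length) (by simp only [upp_l]; exact List.mem_cons_self)
      have h2 : z 1 (p.length + 1) - z 0 (p.length + 1) -
        (sz c : ℚ) * (z 0 p.length - z 0 (p.length + 2)) = 0 := h1
      show z 1 (p.length + 1) - z 0 (p.length + 1) =
        (sz c : ℚ) * (z 0 p.length - z 0 (p.length + 2))
      linarith

theorem le_cn {w : Word} (h : nul w = 0) : nw w + nb w ≤ cn w := by
  have hD : Dehn ℚ w = ⊥ := Submodule.finrank_eq_zero.1 h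
  have hinj : Function.Injective (LinearMap.pi fun i : Fin (upp_l w).length =>
      (upp_l w).get i ∘ₗ (LinearMap.coprod (White w).subtype (Black w).subtype)) := by
    rw [← LinearMap.ker_eq_bot, LinearMap.ker_eq_bot']
    rintro ⟨x, y⟩ hxy
    have hz : ∀ f ∈ upp_l w, f (x.1 + y.1) = 0 := by
      intro f hf
      obtain ⟨i, hi⟩ := List.get_of_mem hf
      have h1 := congrFun hxy i
      simp only [LinearMap.pi_apply, LinearMap.comp_apply, LinearMap.coprod_apply,
        Submodule.subtype_apply, Pi.zero_apply, hi] at h1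
      exact h1
    have hx := x.2
    have hy := y.2
    have hmem : x.1 + y.1 ∈ Dehn ℚ w := by
      refine ⟨⟨upp_run w _ (hx.1.1.add hy.1.1) hz, fun _ => Submodule.mem_top, fun j hj => ?_⟩, ?_⟩
      · rw [Pi.add_apply, hx.1.2.2 j hj, hy.1.2.2 j hj, add_zero]
      · rw [Pi.add_apply, hx.2, hy.2, add_zero]
    rw [hD, Submodule.mem_bot] at hmem
    have hpt : ∀ j i, x.1 j i = 0 ∧ y.1 j i = 0 := by
      intro j i
      have h1 : x.1 j i + y.1 j i = 0 := congrFun (congrFun hmem j) i
      rcases Nat.mod_two_eq_zero_or_one i with hi | hi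
      · have h2 : x.1 j i = 0 := hx.1.2.1 j i hi
        exact ⟨h2, by linarith⟩
      · have h2 : y.1 j i = 0 := hy.1.2.1 j i hi
        exact ⟨by linarith, h2⟩
    refine Prod.ext (Subtype.ext ?_) (Subtype.ext ?_)
    · funext j i
      exact (hpt j i).1
    · funext j i
      exact (hpt j i).2
  have h2 := LinearMap.finrank_le_finrank_of_injective hinj
  rw [Module.finrank_prod, Module.finrank_fin_fun, upp_len] at h2
  exact h2

end Pool.Agent.Lib.MP_177a0e_gt.Des
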