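import Pool.Agent.Lib.MP_177a0e_gt.Sig.Kn
import Pool.Agent.Lib.MP_177a0e_gt.Des.Pth
import Pool.Agent.Lib.MP_177a0e_gt.Des.Cnt
import Pool.Agent.Lib.MP_177a0e_gt.Des.Upp
import Pool.Agent.Lib.MP_177a0e_gt.Des.Dfn

/-!
# The signatures of the two knots obtained from an alternating diagram.
-/

namespace Pool.Agent.Lib.MP_177a0e_gt.Des

open Pool.Agent.Lib.MP_177a0e_gt.Tangle Pool.Agent.Lib.MP_177a0e_gt.Tangle.Gen
open Pool.Agent.Lib.MP_177a0e_gt.Sig

theorem alt_sig {g : ℕ} {K L : Word} (hK : IsKnot K) (hL : IsKnot L) (h : AltPair g K L) :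
    signature K = signature L + 2 * g := by
  obtain ⟨e, w, p, q, he, h1, h2, hpq⟩ := h
  have hw := (path_valid h1 hK.valid).1
  have nK := nul_knot hK
  have nL := nul_knot hL
  obtain ⟨aK, cK, rK⟩ := path_alt h1 he
  obtain ⟨aL, cL, rL⟩ := path_alt h2 he
  have sK := sg_alt aK nK
  have sL := sg_alt aL nL
  have low := cn_le hw
  have uK := le_cn nK
  have uL := le_cn nL
  unfold signature
  rw [sK, sL]
  cases e
  · obtain ⟨bK, wK⟩ := path_same h1 he rfl
    obtain ⟨wL, bL⟩ := path_other h2 he (by decide)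
    simp only [sz, Bool.false_eq_true, if_false, if_true, reduceCtorEq] at *
    omega
  · obtain ⟨wK, bK⟩ := path_other h1 he (by decide)
    obtain ⟨bL, wL⟩ := path_same h2 he rfl
    simp only [sz, Bool.false_eq_true, if_false, if_true] at *
    omega

theorem alt_cob {g : ℕ} {K L : Word} (hK : IsKnot K) (hL : IsKnot L) (h : AltPair g K L) :
    Cob [true] [true] 0 (2 * g) 0 K L := by
  obtain ⟨e, w, p, q, he, h1, h2, hpq⟩ := h
  have c1 := (path_valid h1 hK.valid).2
  have c2 := (path_valid h2 hL.valid).2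
  exact (c1.symm.trans c2).cast rfl hpq rfl

end Pool.Agent.Lib.MP_177a0e_gt.Des
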