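import Pool.Agent.Lib.MP_177a0e_gt.Sig.Gl
import Pool.Agent.Lib.MP_177a0e_gt.Des.Cn

/-!
# A slice is added at the top.

`parM k`: the values which are zero at the gaps `i` with `i % 2 ≠ k` (`k = 1`: white, `k = 0`: black); `dk k w` the dimension of the closed states of `w` with these values.
PROOFS. `L = lp s`. Injective linear maps into `Closed (fitM ℚ) (parM k) (w ++ [s])`: from `Closed (fitM ℚ) (parM k) w × ℚ` (`dk_free`), from `Closed (fitM ℚ) (parM k) w` (`dk_mono`), and from the kernel of the linear form `x ↦ x |w| L - x |w| (L + 2)` on it (`dk_cap`):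
`(x, t) ↦ fun j => if j ≤ |w| then x j else if j = |w| + 1 then nx (x |w|) t else 0`, where `nx y t` is `fun i => if i ≤ L then y i else if i = L + 1 then t else y (i - 2)` for a minimum, `fun i => if i ≤ L then y i else y (i + 2)` for a maximum, and `fun i => if i = L + 1 then t else y i` for a crossing (`t = 0` in `dk_mono` unless
the gap `L + 1` has the right parity, then any `t`, for instance the old value `0`; `dk_mono` for a maximum at `L` with `L % 2 ≠ k`: the values at `L`, `L + 2` are zero, so no condition). `run_append`, `run_congr` (`Sig/Gl.lean`); `LinearMap.finrank_le_finrank_of_injective`, `Module.finrank_prod`, `LinearMap.finrank_range_add_finrank_ker`. Finite dimension: `fd` (`Sig/Fd.lean`).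
-/

namespace Pool.Agent.Lib.MP_177a0e_gt.Des

open Pool.Agent.Lib.MP_177a0e_gt.Tangle Pool.Agent.Lib.MP_177a0e_gt.Tangle.Gen
open Pool.Agent.Lib.MP_177a0e_gt.Sig

/-- the values which are zero at the gaps whose parity is not `k` -/
def parM (k : ℕ) : Submodule ℚ (ℕ → ℚ) where
  carrier := {x | ∀ i, i % 2 ≠ k → x i = 0}
  add_mem' := fun {x y} h1 h2 i hi => by rw [Pi.add_apply, h1 i hi, h2 i hi, add_zero]
  zero_mem' := fun _ _ => rfl
  smul_mem' := fun r {x} h i hi => by rw [Pi.smul_apply, h i hi, smul_zero]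

/-- the dimension of the states with values in `parM k` -/
noncomputable def dk (k : ℕ) (w : Word) : ℕ := Module.finrank ℚ (Closed (fitM ℚ) (parM k) w)

theorem dk_one (w : Word) : dk 1 w = nw w := by
  have h : parM 1 = whiteM ℚ := by
    ext x
    constructor
    · intro hx i hi
      exact hx i (by omega)
    · intro hx i hi
      exact hx i (by omega)
  unfold dk nw
  rw [h]

theorem dk_zero (w : Word) : dk 0 w = nb w := by
  have h : parM 0 = blackM := by
    ext x
    constructor
    · intro hx i hi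
      exact hx i (by omega)
    · intro hx i hi
      exact hx i (by omega)
  unfold dk nb
  rw [h]

/-- one more level at the top -/
private def CntA_e (n : ℕ) (x : ℕ → ℕ → ℚ) (y : ℕ → ℚ) : ℕ → ℕ → ℚ :=
  fun j => if j = n + 1 then y else x j

private theorem CntA_e_top (n : ℕ) (x : ℕ → ℕ → ℚ) (y : ℕ → ℚ) : CntA_e n x y (n + 1) = y :=
  if_pos rfl

private theorem CntA_e_ne {n : ℕ} (x : ℕ → ℕ → ℚ) (y : ℕ → ℚ) {j : ℕ} (h : j ≠ n + 1) :
    CntA_e n x y j = x j := if_neg h

private theorem CntA_mem {k : ℕ} {w : Word} {s : Slice} {x : ℕ → ℕ → ℚ} {y : ℕ → ℚ}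
    (hx : x ∈ Closed (fitM ℚ) (parM k) w) (hy : y ∈ parM k) (h : Fit s (x w.length) y) :
    CntA_e w.length x y ∈ Closed (fitM ℚ) (parM k) (w ++ [s]) := by
  have hr : x ∈ Runs (fitM ℚ) (parM k) w := hx.1
  refine ⟨⟨?_, fun j => ?_, fun j hj => ?_⟩, ?_⟩
  · rw [run_append]
    refine ⟨?_, ?_, trivial⟩
    · rw [run_congr (y := x) fun j hj => CntA_e_ne x y (by omega)]
      exact hr.1
    · have e0 : sh w.length (CntA_e w.length x y) 0 = x w.length := by
        show CntA_e w.length x y (0 + w.length) = x w.length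
        rw [Nat.zero_add, CntA_e_ne x y (by omega)]
      have e1 : sh w.length (CntA_e w.length x y) 1 = y := by
        show CntA_e w.length x y (1 + w.length) = y
        rw [Nat.add_comm, CntA_e_top]
      rw [e0, e1]
      exact h
  · by_cases hj : j = w.length + 1
    · rw [hj, CntA_e_top]
      exact hy
    · rw [CntA_e_ne x y hj]
      exact hr.2.1 j
  · have hj' : w.length + 1 < j := by
      rw [List.length_append] at hj
      exact hj
    rw [CntA_e_ne x y (by omega)]
    exact hr.2.2 j (by omega)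
  · rw [CntA_e_ne x y (by omega)]
    exact hx.2

private theorem CntA_le {k : ℕ} {w : Word} {s : Slice} {D : Type} [AddCommGroup D] [Module ℚ D]
    (φ : D →ₗ[ℚ] Closed (fitM ℚ) (parM k) w) (ν : D →ₗ[ℚ] (ℕ → ℚ)) (h1 : ∀ d, ν d ∈ parM k)
    (h2 : ∀ d, Fit s ((φ d).1 w.length) (ν d)) (h3 : ∀ d, φ d = 0 → ν d = 0 → d = 0) :
    Module.finrank ℚ D ≤ dk k (w ++ [s]) := by
  let Ψ : D →ₗ[ℚ] Closed (fitM ℚ) (parM k) (w ++ [s]) :=
    { toFun := fun d => ⟨CntA_e w.length (φ d).1 (ν d), CntA_mem (φ d).2 (h1 d) (h2 d)⟩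
      map_add' := by
        intro d d'
        apply Subtype.ext
        funext j
        show CntA_e w.length (φ (d + d')).1 (ν (d + d')) j =
          CntA_e w.length (φ d).1 (ν d) j + CntA_e w.length (φ d').1 (ν d') j
        by_cases hj : j = w.length + 1
        · rw [hj, CntA_e_top, CntA_e_top, CntA_e_top, map_add]
        · rw [CntA_e_ne _ _ hj, CntA_e_ne _ _ hj, CntA_e_ne _ _ hj, map_add]
          rfl
      map_smul' := by
        intro r d
        apply Subtype.ext
        funext j
        show CntA_e w.length (φ (r • d)).1 (ν (r • d)) j = r • CntA_e w.length (φ d).1 (ν d) j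
        by_cases hj : j = w.length + 1
        · rw [hj, CntA_e_top, CntA_e_top, map_smul]
        · rw [CntA_e_ne _ _ hj, CntA_e_ne _ _ hj, map_smul]
          rfl }
  have hfin : FiniteDimensional ℚ (Closed (fitM ℚ) (parM k) (w ++ [s])) :=
    fd (P := fitM ℚ) (fun _ => le_refl _) _ _
  refine LinearMap.finrank_le_finrank_of_injective (f := Ψ) ?_
  rw [injective_iff_map_eq_zero]
  intro d hd
  have h4 : ∀ j, CntA_e w.length (φ d).1 (ν d) j = 0 := fun j => congrFun (congrArg Subtype.val hd) j
  apply h3 d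
  · apply Subtype.ext
    funext j
    have hr : (φ d).1 ∈ Runs (fitM ℚ) (parM k) w := (φ d).2.1
    by_cases hj : j = w.length + 1
    · exact hr.2.2 j (by omega)
    · rw [← CntA_e_ne (φ d).1 (ν d) hj]
      exact h4 j
  · rw [← CntA_e_top w.length (φ d).1 (ν d)]
    exact h4 _

/-- the level above a minimum -/
private def CntA_cup (L : ℕ) (y : ℕ → ℚ) (t : ℚ) : ℕ → ℚ :=
  fun i => if i ≤ L then y i else if i = L + 1 then t else y (i - 2)

/-- the level above a crossing -/
private def CntA_crs (L : ℕ) (y : ℕ → ℚ) (t : ℚ) : ℕ → ℚ := fun i => if i = L + 1 then t else y i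

/-- the level above a maximum -/
private def CntA_cap (L : ℕ) (y : ℕ → ℚ) : ℕ → ℚ := fun i => if i ≤ L then y i else y (i + 2)

private theorem CntA_cup_mem {k L : ℕ} {y : ℕ → ℚ} {t : ℚ} (hy : y ∈ parM k)
    (ht : (L + 1) % 2 = k ∨ t = 0) : CntA_cup L y t ∈ parM k := by
  intro i hi
  unfold CntA_cup
  split_ifs with h1 h2
  · exact hy i hi
  · rcases ht with ht | ht
    · subst h2
      exact absurd ht hi
    · exact ht
  · exact hy _ (by omega)

private theorem CntA_crs_mem {k L : ℕ} {y : ℕ → ℚ} {t : ℚ} (hy : y ∈ parM k)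
    (ht : (L + 1) % 2 = k ∨ t = 0) : CntA_crs L y t ∈ parM k := by
  intro i hi
  unfold CntA_crs
  split_ifs with h2
  · rcases ht with ht | ht
    · subst h2
      exact absurd ht hi
    · exact ht
  · exact hy _ hi

private theorem CntA_cap_mem {k L : ℕ} {y : ℕ → ℚ} (hy : y ∈ parM k) : CntA_cap L y ∈ parM k := by
  intro i hi
  unfold CntA_cap
  split_ifs with h1
  · exact hy i hi
  · exact hy _ (by omega)

private theorem CntA_cup_fit {p q : List Bool} {x : Bool} (y : ℕ → ℚ) (t : ℚ) :
    Fit (⟨p, cup x, q⟩ : Slice) y (CntA_cup p.length y t) := by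
  refine ⟨fun i hi => if_pos hi, fun i hi => ?_⟩
  have hi' : p.length ≤ i := hi
  unfold CntA_cup
  rw [if_neg (by omega), if_neg (by omega), Nat.add_sub_cancel]

private theorem CntA_crs_fit {p q : List Bool} {c x x' : Bool} (y : ℕ → ℚ) (t : ℚ) :
    Fit (⟨p, cross c x x', q⟩ : Slice) y (CntA_crs p.length y t) :=
  fun _ hi => if_neg hi

private theorem CntA_cap_fit {p q : List Bool} {x : Bool} (y : ℕ → ℚ)
    (h : y p.length = y (p.length + 2)) :
    Fit (⟨p, cap x, q⟩ : Slice) y (CntA_cap p.length y) := by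
  refine ⟨fun i hi => (if_pos hi).symm, fun i hi => ?_⟩
  have hi' : p.length ≤ i := hi
  unfold CntA_cap
  by_cases h0 : i = p.length
  · rw [if_pos (by omega), h0, h]
  · rw [if_neg (by omega)]

private theorem CntA_cup_add (L : ℕ) (y y' : ℕ → ℚ) (t t' : ℚ) :
    CntA_cup L (y + y') (t + t') = CntA_cup L y t + CntA_cup L y' t' := by
  funext i
  simp only [CntA_cup, Pi.add_apply]
  split_ifs <;> rfl

private theorem CntA_cup_smul (L : ℕ) (r : ℚ) (y : ℕ → ℚ) (t : ℚ) :
    CntA_cup L (r • y) (r • t) = r • CntA_cup L y t := by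
  funext i
  simp only [CntA_cup, Pi.smul_apply]
  split_ifs <;> rfl

private theorem CntA_crs_add (L : ℕ) (y y' : ℕ → ℚ) (t t' : ℚ) :
    CntA_crs L (y + y') (t + t') = CntA_crs L y t + CntA_crs L y' t' := by
  funext i
  simp only [CntA_crs, Pi.add_apply]
  split_ifs <;> rfl

private theorem CntA_crs_smul (L : ℕ) (r : ℚ) (y : ℕ → ℚ) (t : ℚ) :
    CntA_crs L (r • y) (r • t) = r • CntA_crs L y t := by
  funext i
  simp only [CntA_crs, Pi.smul_apply]
  split_ifs <;> rfl

private theorem CntA_cap_add (L : ℕ) (y y' : ℕ → ℚ) :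
    CntA_cap L (y + y') = CntA_cap L y + CntA_cap L y' := by
  funext i
  simp only [CntA_cap, Pi.add_apply]
  split_ifs <;> rfl

private theorem CntA_cap_smul (L : ℕ) (r : ℚ) (y : ℕ → ℚ) :
    CntA_cap L (r • y) = r • CntA_cap L y := by
  funext i
  simp only [CntA_cap, Pi.smul_apply]
  split_ifs <;> rfl

private theorem CntA_cup_top (L : ℕ) (y : ℕ → ℚ) (t : ℚ) : CntA_cup L y t (L + 1) = t := by
  unfold CntA_cup
  rw [if_neg (by omega), if_pos rfl]

private theorem CntA_crs_top (L : ℕ) (y : ℕ → ℚ) (t : ℚ) : CntA_crs L y t (L + 1) = t := if_pos rfl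

private theorem CntA_fin (k : ℕ) (w : Word) : FiniteDimensional ℚ (Closed (fitM ℚ) (parM k) w) :=
  fd (P := fitM ℚ) (fun _ => le_refl _) _ _

/-- a minimum or a crossing whose middle gap has the parity `k` -/
theorem dk_free (k : ℕ) (w : Word) (s : Slice) (hs : (∃ x, s.gen = cup x) ∨ ∃ c x y, s.gen = cross c x y)
    (hk : (lp s + 1) % 2 = k) : dk k w + 1 ≤ dk k (w ++ [s]) := by
  have hfin := CntA_fin k w
  have hdim : Module.finrank ℚ (Closed (fitM ℚ) (parM k) w × ℚ) = dk k w + 1 := by
    rw [Module.finrank_prod, Module.finrank_self]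
    rfl
  rw [← hdim]
  rcases s with ⟨p, g, q⟩
  have hk' : (p.length + 1) % 2 = k := hk
  rcases hs with ⟨x, hx⟩ | ⟨c, x, y, hx⟩
  · have hx' : g = cup x := hx
    subst hx'
    refine CntA_le (LinearMap.fst ℚ _ _)
      { toFun := fun d => CntA_cup p.length (d.1.1 w.length) d.2
        map_add' := fun d d' => CntA_cup_add _ _ _ _ _
        map_smul' := fun r d => CntA_cup_smul _ _ _ _ } ?_ ?_ ?_
    · intro d
      exact CntA_cup_mem (d.1.2.1.2.1 _) (Or.inl hk')
    · intro d
      exact CntA_cup_fit _ _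
    · rintro ⟨d, t⟩ h1 h2
      have h3 : d = 0 := h1
      have h4 := congrFun h2 (p.length + 1)
      have h5 : t = 0 := by
        have h6 : CntA_cup p.length (d.1 w.length) t (p.length + 1) = 0 := h4
        rwa [CntA_cup_top] at h6
      rw [h3, h5]
      rfl
  · have hx' : g = cross c x y := hx
    subst hx'
    refine CntA_le (LinearMap.fst ℚ _ _)
      { toFun := fun d => CntA_crs p.length (d.1.1 w.length) d.2
        map_add' := fun d d' => CntA_crs_add _ _ _ _ _
        map_smul' := fun r d => CntA_crs_smul _ _ _ _ } ?_ ?_ ?_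
    · intro d
      exact CntA_crs_mem (d.1.2.1.2.1 _) (Or.inl hk')
    · intro d
      exact CntA_crs_fit _ _
    · rintro ⟨d, t⟩ h1 h2
      have h3 : d = 0 := h1
      have h4 := congrFun h2 (p.length + 1)
      have h5 : t = 0 := by
        have h6 : CntA_crs p.length (d.1 w.length) t (p.length + 1) = 0 := h4
        rwa [CntA_crs_top] at h6
      rw [h3, h5]
      rfl

/-- a minimum or a crossing, any parity -/
theorem dk_mono (k : ℕ) (w : Word) (s : Slice) (hs : (∃ x, s.gen = cup x) ∨ ∃ c x y, s.gen = cross c x y) :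
    dk k w ≤ dk k (w ++ [s]) := by
  rcases s with ⟨p, g, q⟩
  rcases hs with ⟨x, hx⟩ | ⟨c, x, y, hx⟩
  · have hx' : g = cup x := hx
    subst hx'
    refine CntA_le LinearMap.id
      { toFun := fun d => CntA_cup p.length (d.1 w.length) 0
        map_add' := fun d d' => by
          rw [← CntA_cup_add, add_zero]
          rfl
        map_smul' := fun r d => by
          rw [RingHom.id_apply, ← CntA_cup_smul, smul_zero]
          rfl } ?_ ?_ ?_
    · intro d
      exact CntA_cup_mem (d.2.1.2.1 _) (Or.inr rfl)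
    · intro d
      exact CntA_cup_fit _ _
    · intro d h1 _
      exact h1
  · have hx' : g = cross c x y := hx
    subst hx'
    refine CntA_le LinearMap.id
      { toFun := fun d => CntA_crs p.length (d.1 w.length) 0
        map_add' := fun d d' => by
          rw [← CntA_crs_add, add_zero]
          rfl
        map_smul' := fun r d => by
          rw [RingHom.id_apply, ← CntA_crs_smul, smul_zero]
          rfl } ?_ ?_ ?_
    · intro d
      exact CntA_crs_mem (d.2.1.2.1 _) (Or.inr rfl)
    · intro d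
      exact CntA_crs_fit _ _
    · intro d h1 _
      exact h1

/-- the difference of the values at the outer gaps of a maximum -/
private def CntA_form (k : ℕ) (w : Word) (L : ℕ) : Closed (fitM ℚ) (parM k) w →ₗ[ℚ] ℚ where
  toFun x := x.1 w.length L - x.1 w.length (L + 2)
  map_add' x y := by
    simp only [Submodule.coe_add, Pi.add_apply]
    ring
  map_smul' r x := by
    simp only [Submodule.coe_smul, Pi.smul_apply, smul_eq_mul, RingHom.id_apply]
    ring

/-- the level above a maximum as a linear map -/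
private def CntA_capM (k : ℕ) (w : Word) (L : ℕ) : Closed (fitM ℚ) (parM k) w →ₗ[ℚ] (ℕ → ℚ) where
  toFun d := CntA_cap L (d.1 w.length)
  map_add' _ _ := CntA_cap_add _ _ _
  map_smul' _ _ := CntA_cap_smul _ _ _

private theorem CntA_form_ker {k : ℕ} {w : Word} {L : ℕ} (d : Closed (fitM ℚ) (parM k) w)
    (h : CntA_form k w L d = 0) : d.1 w.length L = d.1 w.length (L + 2) := sub_eq_zero.mp h

private theorem CntA_ker_le (k : ℕ) (w : Word) (p q : List Bool) (x : Bool)
    (V : Submodule ℚ (Closed (fitM ℚ) (parM k) w))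
    (hV : ∀ d ∈ V, d.1 w.length p.length = d.1 w.length (p.length + 2)) :
    Module.finrank ℚ V ≤ dk k (w ++ [(⟨p, cap x, q⟩ : Slice)]) := by
  have h1 : ∀ d : V, ((CntA_capM k w p.length).comp V.subtype) d ∈ parM k :=
    fun d => CntA_cap_mem (d.1.2.1.2.1 _)
  have h2 : ∀ d : V, Fit (⟨p, cap x, q⟩ : Slice) ((V.subtype d).1 w.length)
      (((CntA_capM k w p.length).comp V.subtype) d) :=
    fun d => CntA_cap_fit _ (hV d.1 d.2)
  have h3 : ∀ d : V, V.subtype d = 0 → ((CntA_capM k w p.length).comp V.subtype) d = 0 → d = 0 :=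
    fun d h4 _ => Subtype.ext h4
  exact @CntA_le k w _ V _ _ V.subtype ((CntA_capM k w p.length).comp V.subtype) h1 h2 h3

/-- a maximum -/
theorem dk_cap (k : ℕ) (w : Word) (s : Slice) (hs : ∃ x, s.gen = cap x) : dk k w ≤ dk k (w ++ [s]) + 1 := by
  have hfin := CntA_fin k w
  rcases s with ⟨p, g, q⟩
  obtain ⟨x, hx⟩ := hs
  have hx' : g = cap x := hx
  subst hx'
  have h1 := LinearMap.finrank_range_add_finrank_ker (CntA_form k w p.length)
  have h2 : Module.finrank ℚ (LinearMap.range (CntA_form k w p.length)) ≤ 1 := by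
    have := Submodule.finrank_le (LinearMap.range (CntA_form k w p.length))
    rwa [Module.finrank_self] at this
  have h3 := CntA_ker_le k w p q x (LinearMap.ker (CntA_form k w p.length)) fun d hd =>
    CntA_form_ker d hd
  have h5 : dk k w = Module.finrank ℚ (Closed (fitM ℚ) (parM k) w) := rfl
  omega

/-- a maximum whose outer gaps do not have the parity `k` -/
theorem dk_cap' (k : ℕ) (w : Word) (s : Slice) (hs : ∃ x, s.gen = cap x) (hk : lp s % 2 ≠ k) : dk k w ≤ dk k (w ++ [s]) := by
  rcases s with ⟨p, g, q⟩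
  obtain ⟨x, hx⟩ := hs
  have hx' : g = cap x := hx
  subst hx'
  have hk' : p.length % 2 ≠ k := hk
  refine CntA_le LinearMap.id
    { toFun := fun d => CntA_cap p.length (d.1 w.length)
      map_add' := fun d d' => CntA_cap_add _ _ _
      map_smul' := fun r d => CntA_cap_smul _ _ _ } ?_ ?_ ?_
  · intro d
    exact CntA_cap_mem (d.2.1.2.1 _)
  · intro d
    apply CntA_cap_fit
    have h1 : d.1 w.length ∈ parM k := d.2.1.2.1 _
    rw [LinearMap.id_apply, h1 _ hk', h1 (p.length + 2) (by omega)]
  · intro d h1 _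
    exact h1

end Pool.Agent.Lib.MP_177a0e_gt.Des
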