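import Pool.Agent.Lib.MP_177a0e_gt.Sig.Gl
import Pool.Agent.Lib.MP_177a0e_gt.Des.Defs

/-!
# The states of `u ++ [crossing] ++ v` as pairs.

`Pair P Λ u v (L + 1)` (`Sig/Defs.lean`): `y` a closed state of `u`, `z` a state of `v`, `z 0` and the last level of `y` agree except at the gap `L + 1`.
PROOF. `x ↦ (ct |u| x, sh (|u| + 1) x)`; inverse `(y, z) ↦ fun j => if j ≤ |u| then y j else z (j - |u| - 1)`. A crossing changes only the value at the gap `L + 1` (`Fit`).
-/

namespace Pool.Agent.Lib.MP_177a0e_gt.Des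

open Pool.Agent.Lib.MP_177a0e_gt.Tangle Pool.Agent.Lib.MP_177a0e_gt.Tangle.Gen
open Pool.Agent.Lib.MP_177a0e_gt.Sig

variable {R : Type} [Field R] {Λ : Submodule R (ℕ → R)}

private theorem Crx_ct_add (n : ℕ) (x y : ℕ → ℕ → R) : ct n (x + y) = ct n x + ct n y := by
  funext j
  by_cases h : j ≤ n <;> simp [ct, h]

private theorem Crx_ct_smul (n : ℕ) (r : R) (x : ℕ → ℕ → R) : ct n (r • x) = r • ct n x := by
  funext j
  by_cases h : j ≤ n <;> simp [ct, h]

private theorem Crx_run (c x y : Bool) (p q : List Bool) (u v : Word) (t : ℕ → ℕ → R) :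
    Run (fitM R) (u ++ [⟨p, cross c x y, q⟩] ++ v) t ↔
      Run (fitM R) u t ∧ (∀ i, i ≠ p.length + 1 → t (u.length + 1) i = t u.length i) ∧
        Run (fitM R) v (sh (u.length + 1) t) := by
  rw [run_append, run_append]
  have h1 : (u ++ [(⟨p, cross c x y, q⟩ : Slice)]).length = u.length + 1 := by simp
  rw [h1, and_assoc]
  refine and_congr_right fun _ => and_congr_left fun _ => ?_
  constructor
  · rintro ⟨h, -⟩ i hi
    have := h i hi
    simp only [sh, Nat.zero_add] at this
    rw [Nat.add_comm] at this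
    exact this
  · intro h
    refine ⟨fun i hi => ?_, trivial⟩
    simp only [sh, Nat.zero_add]
    rw [Nat.add_comm]
    exact h i hi

private theorem Crx_mem (c x y : Bool) (p q : List Bool) (u v : Word) {t : ℕ → ℕ → R}
    (ht : t ∈ Closed (fitM R) Λ (u ++ [⟨p, cross c x y, q⟩] ++ v)) :
    (ct u.length t, sh (u.length + 1) t) ∈ Pair (fitM R) Λ u v (p.length + 1) := by
  obtain ⟨⟨h1, h2, h3⟩, h4⟩ := ht
  obtain ⟨h5, h6, h7⟩ := (Crx_run c x y p q u v t).1 h1
  refine ⟨⟨⟨?_, fun j => ?_, fun j hj => ?_⟩, ?_⟩, ⟨h7, fun j => h2 _, fun j hj => ?_⟩, fun i hi => ?_⟩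
  · refine (run_congr fun j hj => ?_).1 h5
    simp [ct, hj]
  · by_cases h : j ≤ u.length
    · simpa [ct, h] using h2 j
    · simp [ct, h]
  · simp [ct, not_le.2 hj]
  · simpa [ct] using h4
  · refine h3 _ ?_
    simp only [List.length_append, List.length_singleton]
    omega
  · have := h6 i hi
    simp only [ct, sh, le_refl, if_true, Nat.zero_add]
    exact this

theorem cut_cross (c x y : Bool) (p q : List Bool) (u v : Word) :
    Nonempty (Closed (fitM R) Λ (u ++ [⟨p, cross c x y, q⟩] ++ v) ≃ₗ[R] Pair (fitM R) Λ u v (p.length + 1)) := by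
  let f : Closed (fitM R) Λ (u ++ [⟨p, cross c x y, q⟩] ++ v) →ₗ[R] Pair (fitM R) Λ u v (p.length + 1) :=
    { toFun := fun t => ⟨(ct u.length t.1, sh (u.length + 1) t.1), Crx_mem c x y p q u v t.2⟩
      map_add' := fun t t' => Subtype.ext (Prod.ext (Crx_ct_add _ _ _) rfl)
      map_smul' := fun r t => Subtype.ext (Prod.ext (Crx_ct_smul _ _ _) rfl) }
  have hf : ∀ t, (f t).1 = (ct u.length t.1, sh (u.length + 1) t.1) := fun t => rfl
  refine ⟨LinearEquiv.ofBijective f ⟨?_, ?_⟩⟩
  · intro t t' htt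
    have h0 : (f t).1 = (f t').1 := by rw [htt]
    rw [hf, hf] at h0
    have h1 := congrArg Prod.fst h0
    have h2 := congrArg Prod.snd h0
    apply Subtype.ext
    funext j
    by_cases hj : j ≤ u.length
    · have := congrFun h1 j
      simpa [ct, hj] using this
    · have := congrFun h2 (j - (u.length + 1))
      simp only [sh] at this
      rwa [Nat.sub_add_cancel (by omega)] at this
  · rintro ⟨⟨y', z⟩, ⟨⟨hy1, hy2, hy3⟩, hy4⟩, ⟨hz1, hz2, hz3⟩, hyz⟩
    let t : ℕ → ℕ → R := fun j => if j ≤ u.length then y' j else z (j - (u.length + 1))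
    have htu : ∀ j, j ≤ u.length → t j = y' j := fun j hj => by simp [t, hj]
    have hts : sh (u.length + 1) t = z := by
      funext j
      simp only [sh, t]
      rw [if_neg (by omega), Nat.add_sub_cancel]
    have ht1 : t (u.length + 1) = z 0 := by
      have := congrFun hts 0
      simpa [sh] using this
    have htm : t ∈ Closed (fitM R) Λ (u ++ [⟨p, cross c x y, q⟩] ++ v) := by
      refine ⟨⟨?_, fun j => ?_, fun j hj => ?_⟩, ?_⟩
      · rw [Crx_run, hts]
        refine ⟨(run_congr htu).2 hy1, fun i hi => ?_, hz1⟩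
        rw [ht1, htu _ le_rfl]
        exact hyz i hi
      · by_cases hj : j ≤ u.length
        · rw [htu j hj]
          exact hy2 j
        · simp only [t, if_neg hj]
          exact hz2 _
      · simp only [List.length_append, List.length_singleton] at hj
        have h1 : ¬ j ≤ u.length := by omega
        simp only [t, if_neg h1]
        exact hz3 _ (by omega)
      · show t 0 = 0
        rw [htu 0 (Nat.zero_le _)]
        exact hy4
    refine ⟨⟨t, htm⟩, ?_⟩
    apply Subtype.ext
    rw [hf]
    refine Prod.ext ?_ hts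
    funext j
    by_cases hj : j ≤ u.length
    · simp only [ct, if_pos hj]
      exact htu j hj
    · simp only [ct, if_neg hj]
      exact (hy3 j (not_le.1 hj)).symm

end Pool.Agent.Lib.MP_177a0e_gt.Des
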