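import Pool.Agent.Lib.MP_177a0e_gt.Sig.Cut1
import Pool.Agent.Lib.MP_177a0e_gt.Sig.Cut2
import Pool.Agent.Lib.MP_177a0e_gt.Sig.FdP
import Pool.Agent.Lib.MP_177a0e_gt.Des.Crx
import Pool.Agent.Lib.MP_177a0e_gt.Des.Cn

/-!
# The numbers of regions when a crossing is smoothed.

PROOF. `cases h`. Let `L = p.length`, `E_white = Pair (fitM ℚ) (whiteM ℚ) u v (L + 1)`, `E_black = Pair (fitM ℚ) blackM u v (L + 1)` (finite-dimensional: `fdp`, `Sig/FdP.lean`).
* `a = [crossing at L]`: `Closed (fitM ℚ) Λ (u ++ a ++ v) ≃ Pair (fitM ℚ) Λ u v (L + 1)` (`cut_cross`).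
* parallel, `a' = []`: `Closed (u ++ [] ++ v) ≃ ker (be …)` (`cut_app`, `Sig/Cut1.lean`). `be` is zero on the black pairs if `L + 1` is odd and on the white pairs if `L + 1` is even. `Alternating e a`: `b = e ↔ L % 2 = 0`.
* antiparallel, `a' = [⟨p, cap x, q⟩, ⟨p, cup (!x), q⟩]`: `Closed … ≃ ker (al …)` by `cut_saddle` (`Sig/Cut2.lean`; it is stated for `[⟨p, cap x, q⟩, ⟨p, cup x, q⟩]`, but `fitM` does not depend on the direction `x`: the submodules `Closed (fitM ℚ) Λ _` are equal, `run_append`, `Submodule.ext`;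
  its hypotheses: `hP` by `rfl`, `hΛ` is `white_del` for the white states and the same for the black ones). `al` is zero on the black pairs if `L` is odd and on the white pairs if `L` is even. `Alternating e a`: `(!b) = e ↔ L % 2 = 0`.
* A linear form `l` which is zero has `ker l = ⊤` (`LinearEquiv.finrank_eq`, `LinearMap.ker_eq_top`, `finrank_top`), and always `finrank E ≤ finrank (ker l) + 1` (`LinearMap.finrank_range_add_finrank_ker`, the range is a subspace of `ℚ`).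
-/

namespace Pool.Agent.Lib.MP_177a0e_gt.Des

open Pool.Agent.Lib.MP_177a0e_gt.Tangle Pool.Agent.Lib.MP_177a0e_gt.Tangle.Gen
open Pool.Agent.Lib.MP_177a0e_gt.Sig

private theorem stp_b {y : ℕ → ℚ} (h : y ∈ blackM) {i : ℕ} (hi : i % 2 = 1) : y i = 0 := h i hi

private theorem stp_w {y : ℕ → ℚ} (h : y ∈ whiteM ℚ) {i : ℕ} (hi : i % 2 = 0) : y i = 0 := h i hi

private theorem stp_black_del {x : ℕ → ℚ} (h : x ∈ blackM) (L : ℕ) :
    (fun i => if i ≤ L then x i else x (i + 2)) ∈ blackM := by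
  intro i hi
  have h' : ∀ i, i % 2 = 1 → x i = 0 := h
  dsimp only
  split_ifs
  · exact h' i hi
  · exact h' (i + 2) (by omega)

/-- the dimension of the kernel of a linear form -/
private theorem stp_ker_le {E : Type*} [AddCommGroup E] [Module ℚ E] [FiniteDimensional ℚ E]
    (l : E →ₗ[ℚ] ℚ) : Module.finrank ℚ E ≤ Module.finrank ℚ (LinearMap.ker l) + 1 := by
  have h1 := LinearMap.finrank_range_add_finrank_ker l
  have h2 : Module.finrank ℚ (LinearMap.range l) ≤ 1 := by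
    have h3 := Submodule.finrank_le (LinearMap.range l)
    rwa [Module.finrank_self] at h3
  omega

private theorem stp_ker_eq {E : Type*} [AddCommGroup E] [Module ℚ E]
    (l : E →ₗ[ℚ] ℚ) (h : l = 0) : Module.finrank ℚ (LinearMap.ker l) = Module.finrank ℚ E := by
  rw [h, LinearMap.ker_zero, finrank_top]

/-- closed states do not depend on the directions of the minima -/
private theorem stp_dir (Λ : Submodule ℚ (ℕ → ℚ)) (x : Bool) (p q : List Bool) (u v : Word) :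
    Closed (fitM ℚ) Λ (u ++ ([⟨p, cap x, q⟩, ⟨p, cup (!x), q⟩] : Word) ++ v) =
      Closed (fitM ℚ) Λ (u ++ ([⟨p, cap x, q⟩, ⟨p, cup x, q⟩] : Word) ++ v) := by
  have hr : ∀ (u : Word) (t : ℕ → ℕ → ℚ),
      Run (fitM ℚ) (u ++ ([⟨p, cap x, q⟩, ⟨p, cup (!x), q⟩] : Word) ++ v) t ↔
        Run (fitM ℚ) (u ++ ([⟨p, cap x, q⟩, ⟨p, cup x, q⟩] : Word) ++ v) t := by
    intro u
    induction u with
    | nil => exact fun t => Iff.rfl
    | cons s u ih => exact fun t => and_congr Iff.rfl (ih (sh 1 t))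
  ext t
  have hl : (u ++ ([⟨p, cap x, q⟩, ⟨p, cup (!x), q⟩] : Word) ++ v).length =
      (u ++ ([⟨p, cap x, q⟩, ⟨p, cup x, q⟩] : Word) ++ v).length := by
    simp only [List.length_append, List.length_cons, List.length_nil]
  constructor
  · rintro ⟨⟨h1, h2, h3⟩, h4⟩
    exact ⟨⟨(hr u t).1 h1, h2, fun j hj => h3 j (by rw [hl]; exact hj)⟩, h4⟩
  · rintro ⟨⟨h1, h2, h3⟩, h4⟩
    exact ⟨⟨(hr u t).2 h1, h2, fun j hj => h3 j (by rw [← hl]; exact hj)⟩, h4⟩

/-- the number of regions of one colour -/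
private noncomputable def rg (Λ : Submodule ℚ (ℕ → ℚ)) (w : Word) : ℕ :=
  Module.finrank ℚ (Closed (fitM ℚ) Λ w)

private theorem nw_rg (w : Word) : nw w = rg (whiteM ℚ) w := rfl

private theorem nb_rg (w : Word) : nb w = rg blackM w := rfl

private theorem stp_cross (Λ : Submodule ℚ (ℕ → ℚ)) (c x y : Bool) (p q : List Bool) (u v : Word) :
    rg Λ (u ++ [⟨p, cross c x y, q⟩] ++ v) =
        Module.finrank ℚ (Pair (fitM ℚ) Λ u v (p.length + 1)) := by
  obtain ⟨Φ⟩ := cut_cross (R := ℚ) (Λ := Λ) c x y p q u v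
  exact Φ.finrank_eq

private theorem stp_par (Λ : Submodule ℚ (ℕ → ℚ)) (L : ℕ) (u v : Word) :
    rg Λ (u ++ [] ++ v) = Module.finrank ℚ (LinearMap.ker (be (fitM ℚ) Λ u v L)) := by
  obtain ⟨Ψ, -⟩ := cut_app (R := ℚ) (P := fitM ℚ) (Λ := Λ) u v L
  rw [List.append_nil]
  exact Ψ.finrank_eq

private theorem stp_anti (Λ : Submodule ℚ (ℕ → ℚ))
    (hΛ : ∀ x ∈ Λ, ∀ L : ℕ, (fun i => if i ≤ L then x i else x (i + 2)) ∈ Λ)
    (x : Bool) (p q : List Bool) (u v : Word) :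
    rg Λ (u ++ [⟨p, cap x, q⟩, ⟨p, cup (!x), q⟩] ++ v) =
        Module.finrank ℚ (LinearMap.ker (al (fitM ℚ) Λ u v p.length)) := by
  obtain ⟨Ψ, -⟩ := cut_saddle (R := ℚ) (P := fitM ℚ) (Λ := Λ) (fun _ _ _ => ⟨rfl, rfl⟩) hΛ u v
    [⟨p, cap x, q⟩, ⟨p, cup x, q⟩] x p q rfl
  unfold rg
  rw [stp_dir]
  exact Ψ.finrank_eq

private theorem stp_be {Λ : Submodule ℚ (ℕ → ℚ)} {L : ℕ} (h : ∀ y ∈ Λ, y (L + 1) = 0) (u v : Word) :
    be (fitM ℚ) Λ u v L = 0 := by
  ext ⟨⟨y, z⟩, hy, hz, hyz⟩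
  have h1 : z 0 (L + 1) = 0 := h _ (hz.2.1 0)
  have h2 : y u.length (L + 1) = 0 := h _ (hy.1.2.1 _)
  show z 0 (L + 1) - y u.length (L + 1) = 0
  rw [h1, h2, sub_zero]

private theorem stp_al {Λ : Submodule ℚ (ℕ → ℚ)} {L : ℕ} (h : ∀ y ∈ Λ, y L = 0 ∧ y (L + 2) = 0)
    (u v : Word) : al (fitM ℚ) Λ u v L = 0 := by
  ext ⟨⟨y, z⟩, hy, hz, hyz⟩
  have h1 : y u.length L = 0 := (h _ (hy.1.2.1 _)).1
  have h2 : y u.length (L + 2) = 0 := (h _ (hy.1.2.1 _)).2
  show y u.length L - y u.length (L + 2) = 0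
  rw [h1, h2, sub_zero]

private theorem stp_P (Λ : Submodule ℚ (ℕ → ℚ)) (c x y : Bool) (p q : List Bool) (u v : Word) :
    rg Λ (u ++ [⟨p, cross c x y, q⟩] ++ v) ≤ rg Λ (u ++ [] ++ v) + 1 ∧
      ((∀ y ∈ Λ, y (p.length + 1) = 0) →
        rg Λ (u ++ [] ++ v) = rg Λ (u ++ [⟨p, cross c x y, q⟩] ++ v)) := by
  have f : FiniteDimensional ℚ (Pair (fitM ℚ) Λ u v (p.length + 1)) :=
    fdp (fun _ => le_refl _) _ u v _
  rw [stp_cross, stp_par Λ p.length]
  exact ⟨stp_ker_le _, fun h => stp_ker_eq _ (stp_be h u v)⟩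

private theorem stp_A (Λ : Submodule ℚ (ℕ → ℚ))
    (hΛ : ∀ x ∈ Λ, ∀ L : ℕ, (fun i => if i ≤ L then x i else x (i + 2)) ∈ Λ)
    (c x y x' : Bool) (p q : List Bool) (u v : Word) :
    rg Λ (u ++ [⟨p, cross c x y, q⟩] ++ v) ≤
        rg Λ (u ++ [⟨p, cap x', q⟩, ⟨p, cup (!x'), q⟩] ++ v) + 1 ∧
      ((∀ y ∈ Λ, y p.length = 0 ∧ y (p.length + 2) = 0) →
        rg Λ (u ++ [⟨p, cap x', q⟩, ⟨p, cup (!x'), q⟩] ++ v) =
          rg Λ (u ++ [⟨p, cross c x y, q⟩] ++ v)) := by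
  have f : FiniteDimensional ℚ (Pair (fitM ℚ) Λ u v (p.length + 1)) :=
    fdp (fun _ => le_refl _) _ u v _
  rw [stp_cross, stp_anti Λ hΛ]
  exact ⟨stp_ker_le _, fun h => stp_ker_eq _ (stp_al h u v)⟩

theorem step_same {b e : Bool} {a a' : Word} (h : SmoothRel b a a') (he : Alternating e a) (hb : b = e) (u v : Word) :
    nb (u ++ a' ++ v) = nb (u ++ a ++ v) ∧ nw (u ++ a ++ v) ≤ nw (u ++ a' ++ v) + 1 := by
  rw [nb_rg, nb_rg, nw_rg, nw_rg]
  cases h with
  | parallel x p q =>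
    have hL : p.length % 2 = 0 := (he _ (List.mem_singleton.2 rfl) b x x rfl).1 hb
    exact ⟨(stp_P blackM b x x p q u v).2 fun y hy => stp_b hy (by omega),
      (stp_P (whiteM ℚ) b x x p q u v).1⟩
  | antiparallel x p q =>
    have hL : p.length % 2 = 1 := by
      have h0 := (he _ (List.mem_singleton.2 rfl) (!b) x (!x) rfl)
      have h1 : ¬ ((!b) = e) := by
        rw [hb]
        cases e <;> simp
      have h2 : ¬ p.length % 2 = 0 := fun h3 => h1 (h0.2 h3)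
      omega
    exact ⟨(stp_A blackM (fun x hx L => stp_black_del hx L) (!b) x (!x) x p q u v).2 fun y hy =>
      ⟨stp_b hy (by omega), stp_b hy (by omega)⟩,
      (stp_A (whiteM ℚ) (fun x hx L => white_del hx L) (!b) x (!x) x p q u v).1⟩

theorem step_other {b e : Bool} {a a' : Word} (h : SmoothRel b a a') (he : Alternating e a) (hb : b ≠ e) (u v : Word) :
    nw (u ++ a' ++ v) = nw (u ++ a ++ v) ∧ nb (u ++ a ++ v) ≤ nb (u ++ a' ++ v) + 1 := by
  rw [nb_rg, nb_rg, nw_rg, nw_rg]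
  cases h with
  | parallel x p q =>
    have hL : p.length % 2 = 1 := by
      have h0 := (he _ (List.mem_singleton.2 rfl) b x x rfl)
      have h2 : ¬ p.length % 2 = 0 := fun h3 => hb (h0.2 h3)
      omega
    exact ⟨(stp_P (whiteM ℚ) b x x p q u v).2 fun y hy => stp_w hy (by omega),
      (stp_P blackM b x x p q u v).1⟩
  | antiparallel x p q =>
    have hL : p.length % 2 = 0 := by
      have h0 := (he _ (List.mem_singleton.2 rfl) (!b) x (!x) rfl)
      refine h0.1 ?_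
      revert hb
      cases b <;> cases e <;> simp
    exact ⟨(stp_A (whiteM ℚ) (fun x hx L => white_del hx L) (!b) x (!x) x p q u v).2 fun y hy =>
      ⟨stp_w hy (by omega), stp_w hy (by omega)⟩,
      (stp_A blackM (fun x hx L => stp_black_del hx L) (!b) x (!x) x p q u v).1⟩

end Pool.Agent.Lib.MP_177a0e_gt.Des
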