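import Pool.Agent.Lib.MP_177a0e_gt.Des.ThmA

/-!
# The genus of a knot which descends to a ribbon knot.

PROOFS.
* `desc_ribbon`: `BoundsRibbon K g` (the movie `desc_cob` from `K` to `L` and then the one from `L` to `[]`; `boundsRibbon_ribbonGenus L`), so `ribbonGenus K ≤ g` (`Nat.sInf_le`); `slice_bd` (`Sig/Bnd.lean`) for `K` and for `L` (`sliceGenus L ≤ ribbonGenus L = 0` gives `signature L = 0`, so `signature K = 2 g` by `desc_sig`), `sliceGenus_le_ribbonGenus`.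
* `desc_slice`: `slice_bd` gives `g ≤ sliceGenus K`. For `≤`: `exists_sliceGenus L`, `exists_stabiliser` (`TangleMain.lean`) give a knot `R` with `Cob 0 r r R []` and `BoundsRibbon (L ++ R) 0`; the movie from `K ++ R` to `L ++ R` (`Cob.ctx`) gives `BoundsRibbon (K ++ R) g`; `of_stabiliser` gives `BoundsSurface K g r`, `Nat.sInf_le`.
* `desc_diff`: `Desc.right L.mirror` (or a direct term) and `desc_ribbon`; `L # -L` is ribbon: `cob_adj'` (`TangleMain.lean`), `Nat.sInf_le`.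
-/

namespace Pool.Agent.Lib.MP_177a0e_gt.Des

open Pool.Agent.Lib.MP_177a0e_gt.Tangle Pool.Agent.Lib.MP_177a0e_gt.Tangle.Gen
open Pool.Agent.Lib.MP_177a0e_gt.Sig

theorem desc_ribbon {g : ℕ} {K L : Knot} (h : Desc g K L) (hL : ribbonGenus L.1 = 0) :
    ribbonGenus K.1 = g ∧ sliceGenus K.1 = g := by
  obtain ⟨d, h1⟩ := desc_cob h
  obtain ⟨d', h2⟩ := boundsRibbon_ribbonGenus L
  rw [hL] at h2
  have h3 : BoundsRibbon K.1 g := ⟨d + d', (h1.trans h2).cast rfl (by ring) rfl⟩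
  have h4 : ribbonGenus K.1 ≤ g := Nat.sInf_le h3
  have h5 := desc_sig h
  have h6 := slice_bd K
  have h7 := slice_bd L
  have h8 := sliceGenus_le_ribbonGenus L
  have h9 := sliceGenus_le_ribbonGenus K
  rw [abs_le] at h6 h7
  omega

theorem desc_slice {g : ℕ} {K L : Knot} (h : Desc g K L) (hL : sliceGenus L.1 = 0) : sliceGenus K.1 = g := by
  obtain ⟨d, h1⟩ := desc_cob h
  obtain ⟨m, h2⟩ := exists_sliceGenus L
  rw [hL] at h2
  obtain ⟨R, hR, h3, d', h4⟩ := exists_stabiliser L.2 h2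
  have h5 : BoundsRibbon (K.1 ++ R) g :=
    ⟨d + d', ((h1.ctx (u := []) valid_nil hR.valid).trans h4).cast rfl (by ring) rfl⟩
  have h6 : sliceGenus K.1 ≤ g := Nat.sInf_le ⟨_, of_stabiliser K.2 hR h3 h5⟩
  have h7 := desc_sig h
  have h8 := slice_bd K
  have h9 := slice_bd L
  rw [abs_le] at h8 h9
  omega

theorem desc_diff {g : ℕ} {K L : Knot} (h : Desc g K L) :
    ribbonGenus (csum K.1 (adj L.1)) = g ∧ sliceGenus (csum K.1 (adj L.1)) = g := by
  have h1 : Desc g (K.csum ⟨adj L.1, L.2.adj⟩) (L.csum ⟨adj L.1, L.2.adj⟩) := h.right _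
  have h2 : BoundsRibbon (L.1 ++ adj L.1) 0 := ⟨caps L.1, cob_adj' L.2.valid⟩
  exact desc_ribbon h1 (Nat.le_zero.1 (Nat.sInf_le h2))

end Pool.Agent.Lib.MP_177a0e_gt.Des
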