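import Pool.Agent.Lib.MP_177a0e_gt.Sig.Bnd
import Pool.Agent.Lib.MP_177a0e_gt.Sig.SumA
import Pool.Agent.Lib.MP_177a0e_gt.Des.Alt

/-!
# Movie and signature of a descent.

PROOFS.
* `desc_cob`: induction on `Desc`: `ribbon`: a ribbon concordance from `K` to `L` is a movie from `L` to `K` with `m` births and `m` saddles; `Cob.symm`. `alternating`: `alt_cob`. `trans`: `Cob.trans`. `left`, `right`: `Cob.ctx` (`(J.csum K).1 = J.1 ++ K.1`).
* `desc_sig`: induction: `ribbon`: `conc_sig` (`Sig/Bnd.lean`), `alternating`: `alt_sig`, sums: `sig_append` (`Sig/SumA.lean`, `IsKnot.valid`).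
-/

namespace Pool.Agent.Lib.MP_177a0e_gt.Des

open Pool.Agent.Lib.MP_177a0e_gt.Tangle Pool.Agent.Lib.MP_177a0e_gt.Tangle.Gen
open Pool.Agent.Lib.MP_177a0e_gt.Sig

theorem desc_cob {g : ℕ} {K L : Knot} (h : Desc g K L) : ∃ d : ℕ, Cob [true] [true] 0 (d + 2 * g) d K.1 L.1 := by
  induction h with
  | ribbon h =>
    obtain ⟨m, h⟩ := h
    exact ⟨m, h.symm⟩
  | @alternating g K L h => exact ⟨0, (alt_cob K.2 L.2 h).cast rfl (by omega) rfl⟩
  | trans _ _ ih ih' =>
    obtain ⟨d, h1⟩ := ih
    obtain ⟨d', h2⟩ := ih'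
    exact ⟨d + d', (h1.trans h2).cast rfl (by ring) rfl⟩
  | left J _ ih =>
    obtain ⟨d, h1⟩ := ih
    refine ⟨d, ?_⟩
    have h2 := h1.ctx J.2.valid valid_nil
    rw [List.append_nil, List.append_nil] at h2
    exact h2
  | right J _ ih =>
    obtain ⟨d, h1⟩ := ih
    exact ⟨d, h1.ctx (u := []) valid_nil J.2.valid⟩

theorem desc_sig {g : ℕ} {K L : Knot} (h : Desc g K L) : signature K.1 = signature L.1 + 2 * g := by
  induction h with
  | @ribbon K L h =>
    obtain ⟨m, h⟩ := h
    rw [conc_sig L.2 K.2 h]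
    simp
  | @alternating g K L h => exact alt_sig K.2 L.2 h
  | trans _ _ ih ih' =>
    rw [ih, ih']
    push_cast
    ring
  | @left g K L J _ ih =>
    have h1 : signature (J.1 ++ K.1) = signature J.1 + signature K.1 := sig_append J.2.valid K.2.valid
    have h2 : signature (J.1 ++ L.1) = signature J.1 + signature L.1 := sig_append J.2.valid L.2.valid
    show signature (J.1 ++ K.1) = signature (J.1 ++ L.1) + 2 * g
    rw [h1, h2, ih]
    ring
  | @right g K L J _ ih =>
    have h1 : signature (K.1 ++ J.1) = signature K.1 + signature J.1 := sig_append K.2.valid J.2.valid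
    have h2 : signature (L.1 ++ J.1) = signature L.1 + signature J.1 := sig_append L.2.valid J.2.valid
    show signature (K.1 ++ J.1) = signature (L.1 ++ J.1) + 2 * g
    rw [h1, h2, ih]
    ring

end Pool.Agent.Lib.MP_177a0e_gt.Des
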