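import Pool.Agent.Lib.MP_177a0e_gt.Sig.TbK
import Pool.Agent.Lib.MP_177a0e_gt.Des.Defs

/-!
# Two-bridge knots.

PROOFS.
* `tb_alt`: the crossings of `twoBridge l` (`Sig/TbD.lean`) are `cross true true true` at `p = []` and `cross false _ _` at `p = [true]`: `Alternating true`. The letters `true` are positive crossings of parallel strands: deleting one letter `true` from the list is one step of `Smooths true` (`SmoothRel.parallel true [] [false]`; validity: `tb_valid`, `tbl_valid` in
  `Sig/TbB.lean`; `tbl (l₁ ++ l₂) = tbl l₁ ++ tbl l₂` by induction). So for a list with `2 n + 1` letters `true` delete `2 n` of them (induction: if `l.count true = k + 1 + 1`, write `l = l₁ ++ true :: l₂`, `List.append_of_mem`; `Smooths` grows at the end, so prove `∀ k l, l.count true = k + 1 → ∃ l', l'.count true = 1 ∧ Smooths true k (twoBridge l) (twoBridge l')` with an auxiliary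
  lemma for a first step: `Local (SmoothRel b) _ _ w w₁ → Smooths b n w₁ w₂ → Smooths b (n + 1) w w₂`, or delete in `l'` instead). `AltPair n (twoBridge l) (twoBridge l')`: `e = true`, `w = twoBridge l`, `p = 0`, `q = 2 n`.
* `tb_unit`: `tb_saddles l` (`Sig/TbB.lean`) with `l.count true = 1`.
-/

namespace Pool.Agent.Lib.MP_177a0e_gt.Des

open Pool.Agent.Lib.MP_177a0e_gt.Tangle Pool.Agent.Lib.MP_177a0e_gt.Tangle.Gen
open Pool.Agent.Lib.MP_177a0e_gt.Sig

private theorem TwbA_app (l l' : List Bool) : tbl (l ++ l') = tbl l ++ tbl l' := by
  induction l with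
  | nil => rfl
  | cons b l ih =>
    cases b
    · show _ :: _ :: tbl (l ++ l') = _
      rw [ih]
      rfl
    · show _ :: tbl (l ++ l') = _
      rw [ih]
      rfl

private theorem TwbA_step (l₁ l₂ : List Bool) :
    Local (SmoothRel true) [true] [true] (twoBridge (l₁ ++ true :: l₂)) (twoBridge (l₁ ++ l₂)) := by
  have e1 : twoBridge (l₁ ++ true :: l₂) = (⟨[true], cup true, []⟩ :: tbl l₁) ++
      [⟨[], cross true true true, [false]⟩] ++ (tbl l₂ ++ [⟨[true], cap true, []⟩]) := by
    unfold twoBridge
    rw [TwbA_app]
    simp [tbl]
  have e2 : twoBridge (l₁ ++ l₂) = (⟨[true], cup true, []⟩ :: tbl l₁) ++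
      [] ++ (tbl l₂ ++ [⟨[true], cap true, []⟩]) := by
    unfold twoBridge
    rw [TwbA_app]
    simp
  have v1 := tb_valid (l₁ ++ true :: l₂)
  have v2 := tb_valid (l₁ ++ l₂)
  rw [e1] at v1 ⊢
  rw [e2] at v2 ⊢
  exact Local.mk _ _ _ _ (SmoothRel.parallel true [] [false]) v1 v2

private theorem TwbA_smooths (k : ℕ) (l : List Bool) : k ≤ l.count true →
    ∃ l' : List Bool, l'.count true = l.count true - k ∧ Smooths true k (twoBridge l) (twoBridge l') := by
  induction k with
  | zero => exact fun _ => ⟨l, rfl, Smooths.refl _⟩
  | succ k ih =>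
    intro h
    obtain ⟨l', h1, h2⟩ := ih (by omega)
    have h3 : true ∈ l' := List.count_pos_iff.1 (by omega)
    obtain ⟨l₁, l₂, rfl⟩ := List.append_of_mem h3
    refine ⟨l₁ ++ l₂, ?_, h2.step (TwbA_step l₁ l₂)⟩
    rw [List.count_append, List.count_cons_self] at h1
    rw [List.count_append]
    omega

theorem tb_alt (l : List Bool) (h : l.count true % 2 = 1) :
    ∃ l' : List Bool, l'.count true = 1 ∧ AltPair (l.count true / 2) (twoBridge l) (twoBridge l') := by
  obtain ⟨l', h1, h2⟩ := TwbA_smooths (2 * (l.count true / 2)) l (by omega)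
  refine ⟨l', by omega, true, twoBridge l, 0, 2 * (l.count true / 2), ?_, Smooths.refl _, h2, by omega⟩
  intro s hs c x y hc
  have key : ∀ (m : List Bool) (s : Slice), s ∈ tbl m → ∀ c x y, s.gen = cross c x y →
      (c = true ↔ s.left.length % 2 = 0) := by
    intro m
    induction m with
    | nil =>
      intro s hs
      exact absurd hs List.not_mem_nil
    | cons b m ih =>
      intro s hs c x y hc
      cases b
      · have hs' : s ∈ ⟨[true], cross false true false, []⟩ :: ⟨[true], cross false false true, []⟩ :: tbl m := hs
        rw [List.mem_cons, List.mem_cons] at hs'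
        rcases hs' with rfl | rfl | hs'
        · have h3 : cross false true false = cross c x y := hc
          rw [Gen.cross.injEq] at h3
          rw [← h3.1]
          simp
        · have h3 : cross false false true = cross c x y := hc
          rw [Gen.cross.injEq] at h3
          rw [← h3.1]
          simp
        · exact ih s hs' c x y hc
      · have hs' : s ∈ ⟨[], cross true true true, [false]⟩ :: tbl m := hs
        rw [List.mem_cons] at hs'
        rcases hs' with rfl | hs'
        · have h3 : cross true true true = cross c x y := hc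
          rw [Gen.cross.injEq] at h3
          rw [← h3.1]
          simp
        · exact ih s hs' c x y hc
  unfold twoBridge at hs
  rw [List.mem_cons, List.mem_append, List.mem_singleton] at hs
  rcases hs with rfl | hs | rfl
  · exact absurd hc (by simp)
  · exact key l s hs c x y hc
  · exact absurd hc (by simp)

theorem tb_unit (l : List Bool) (h : l.count true = 1) : Cob [true] [true] 0 0 0 (twoBridge l) [] := by
  have h1 := tb_saddles l (by omega)
  rw [h] at h1
  exact h1

end Pool.Agent.Lib.MP_177a0e_gt.Des
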