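import Pool.Agent.Lib.MP_177a0e_gt.TangleRev
import Pool.Agent.Lib.MP_177a0e_gt.Des.TwbA
import Pool.Agent.Lib.MP_177a0e_gt.Des.Adj

/-!
# Every knot descends to its sum with the mirror image of a sum of positive two-bridge knots.

PROOFS.
* `tb_desc`: let `l'` be as in `tb_alt`. `K` is isotopic to `K # adj (twoBridge l')` (`tb_unit`, `Cob.adj` in `TangleRev.lean`, `Cob.ctx`, `Cob.symm`; `Desc.ribbon` with `m = 0`), and `AltPair n (adj (twoBridge l')) (adj (twoBridge l))` (`altPair_adj`, `Desc.alternating`, `Desc.left K`). `adj (twoBridge l')` is a knot: `IsKnot.adj`, `tb_knot`. `Desc.trans`, `0 + n = n`.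
* `tbs_desc`: induction on `m` for all `K`: `adj (twoBridge l ++ tbSum m) = adj (tbSum m) ++ adj (twoBridge l)` (`adj_append`): first the descent of `m` for `K`, then `tb_desc` for the knot `K # adj (tbSum m)`; `tbGenus (l :: m) = l.count true / 2 + tbGenus m`. The knots agree by `Subtype.ext` (`List.append_assoc`); `m = []`: `adj [] = []`, `K ++ [] = K`, `Desc.ribbon`.
-/

namespace Pool.Agent.Lib.MP_177a0e_gt.Des

open Pool.Agent.Lib.MP_177a0e_gt.Tangle Pool.Agent.Lib.MP_177a0e_gt.Tangle.Gen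
open Pool.Agent.Lib.MP_177a0e_gt.Sig

theorem tb_desc (l : List Bool) (h : l.count true % 2 = 1) (K : Knot) :
    Desc (l.count true / 2) K ⟨K.1 ++ adj (twoBridge l), K.2.append (tb_knot l h).adj⟩ := by
  obtain ⟨l', h1, h2⟩ := tb_alt l h
  have hk : IsKnot (adj (twoBridge l')) := (tb_knot l' (by rw [h1])).adj
  have h3 : Cob [true] [true] 0 0 0 (K.1 ++ adj (twoBridge l')) K.1 := by
    have h4 := (tb_unit l' h1).adj.ctx K.2.valid valid_nil
    rw [List.append_nil, List.append_nil] at h4
    simpa [adj_nil] using h4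
  have h5 : Desc 0 K ⟨K.1 ++ adj (twoBridge l'), K.2.append hk⟩ := Desc.ribbon ⟨0, h3⟩
  have h6 : Desc (l.count true / 2) ⟨adj (twoBridge l'), hk⟩ ⟨adj (twoBridge l), (tb_knot l h).adj⟩ :=
    Desc.alternating (altPair_adj h2)
  have h7 := h5.trans (h6.left K)
  rw [Nat.zero_add] at h7
  exact h7

theorem tbs_desc (m : List (List Bool)) (h : TbOdd m) (K : Knot) :
    Desc (tbGenus m) K ⟨K.1 ++ adj (tbSum m), K.2.append (tbs_knot m h).adj⟩ := by
  induction m generalizing K with
  | nil =>
    refine Desc.ribbon ⟨0, ?_⟩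
    have h1 : K.1 ++ adj (tbSum []) = K.1 := by simp [tbSum, adj_nil]
    show Cob [true] [true] 0 0 0 (K.1 ++ adj (tbSum [])) K.1
    rw [h1]
    exact Cob.refl K.2.valid
  | cons l m ih =>
    have hl : l.count true % 2 = 1 := h l List.mem_cons_self
    have hm : TbOdd m := fun l' hl' => h l' (List.mem_cons_of_mem _ hl')
    have h1 := ih hm K
    have h2 := tb_desc l hl ⟨K.1 ++ adj (tbSum m), K.2.append (tbs_knot m hm).adj⟩
    have h3 := h1.trans h2
    have e : tbGenus (l :: m) = tbGenus m + l.count true / 2 := by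
      simp only [tbGenus, List.map_cons, List.sum_cons]
      omega
    have e2 : (⟨K.1 ++ adj (tbSum (l :: m)), K.2.append (tbs_knot (l :: m) h).adj⟩ : Knot) =
        ⟨K.1 ++ adj (tbSum m) ++ adj (twoBridge l),
          (K.2.append (tbs_knot m hm).adj).append (tb_knot l hl).adj⟩ := by
      apply Subtype.ext
      show K.1 ++ adj (twoBridge l ++ tbSum m) = K.1 ++ adj (tbSum m) ++ adj (twoBridge l)
      rw [adj_append, List.append_assoc]
    rw [e, e2]
    exact h3

end Pool.Agent.Lib.MP_177a0e_gt.Des
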